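import Mathlib

/-! Algebraic part: the kernel `E`, the cubic `Nh` and its sign pattern. -/

namespace Pool.Agent.Helper69.CB

open Finset

/-- `E x y s = |(x+iy)^2 - s|^2`. -/
noncomputable def E (x y s : ℝ) : ℝ := (x ^ 2 - y ^ 2 - s) ^ 2 + 4 * x ^ 2 * y ^ 2

lemma E_pos {x y s : ℝ} (hy : 0 < y) (hs : 0 ≤ s) : 0 < E x y s := by
  unfold E
  rcases eq_or_ne x 0 with rfl | hx
  · have : 0 < y ^ 2 := by positivity
    have h2 : (0 : ℝ) ^ 2 - y ^ 2 - s < 0 := by nlinarith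
    have := mul_pos_of_neg_of_neg h2 h2
    nlinarith
  · have : 0 < x ^ 2 * y ^ 2 := by positivity
    nlinarith [sq_nonneg (x ^ 2 - y ^ 2 - s)]

/-- The quadratic `q`. -/
noncomputable def qq (x y T : ℝ) : ℝ :=
  3 * T ^ 2 - (1 + x ^ 2 - 2 * y ^ 2) * T - (1 + y ^ 2) * (x ^ 2 + y ^ 2)

/-- The cubic `Nh`. -/
noncomputable def Nh (g r x y T : ℝ) : ℝ :=
  g * (1 + y ^ 2 + 3 * T) * E x y T + r * (1 - T) * qq x y T

noncomputable def Vr (x y T : ℝ) : ℝ :=
  x * ((x ^ 2 + y ^ 2) ^ 2 - (x ^ 2 + y ^ 2) + T) - T * (x ^ 3 - 3 * x * y ^ 2)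

noncomputable def Vi (x y T : ℝ) : ℝ :=
  y * ((x ^ 2 + y ^ 2) ^ 2 + (x ^ 2 + y ^ 2) + T) - T * (3 * x ^ 2 * y - y ^ 3)

lemma kernel_id {x y w T : ℝ} (hE : E x y w ≠ 0) (hET : E x y T ≠ 0) (hwT : w ≠ T) :
    w * (1 - w) / (w - T) * ((w - (x ^ 2 - y ^ 2)) / E x y w)
      = -1 + (Vr x y T * x * (x ^ 2 + y ^ 2 - w) + Vi x y T * y * (x ^ 2 + y ^ 2 + w))
          / (E x y w * E x y T)
        - T * (T - 1) / (T - w) * ((x ^ 2 - y ^ 2 - T) / E x y T) := by
  have h1 : w - T ≠ 0 := sub_ne_zero.mpr hwT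
  have h2 : T - w ≠ 0 := sub_ne_zero.mpr (Ne.symm hwT)
  have h3 : T - w = -(w - T) := by ring
  rw [h3]
  unfold Vr Vi
  field_simp
  unfold E
  ring

lemma kernel_id0 {x y T : ℝ} (hA : x ^ 2 + y ^ 2 ≠ 0) (hET : E x y T ≠ 0) :
    -(Vr x y T * x + Vi x y T * y) / ((x ^ 2 + y ^ 2) * E x y T)
      + (T - 1) * ((x ^ 2 - y ^ 2 - T) / E x y T) = -1 := by
  unfold Vr Vi
  field_simp
  unfold E
  ring

/-- `SA = Re P / x`. -/
noncomputable def SA (κ : ℝ) (m : ℕ) (a : ℕ → ℝ) (x y : ℝ) : ℝ :=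
  κ / (x ^ 2 + y ^ 2) + ∑ i ∈ range m, 2 * ((x ^ 2 + y ^ 2 - a i) / E x y (a i))

/-- `SB = - Im P / y`. -/
noncomputable def SB (κ : ℝ) (m : ℕ) (a : ℕ → ℝ) (x y : ℝ) : ℝ :=
  κ / (x ^ 2 + y ^ 2) + ∑ i ∈ range m, 2 * ((x ^ 2 + y ^ 2 + a i) / E x y (a i))

/-- `T` is critical. -/
def Crit (κ : ℝ) (m : ℕ) (a : ℕ → ℝ) (T : ℝ) : Prop :=
  (T - 1) * (κ + ∑ i ∈ range m, 2 * (T / (T - a i))) = 0

/-- half derivative contribution -/
noncomputable def Dx (m : ℕ) (a : ℕ → ℝ) (x y T : ℝ) : ℝ :=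
  ∑ i ∈ range m, 2 * (a i * (1 - a i) / (a i - T)) * ((a i - (x ^ 2 - y ^ 2)) / E x y (a i))

lemma Dx_eq {κ : ℝ} {m : ℕ} {a : ℕ → ℝ} {x y T : ℝ} (hy : 0 < y) (hT : 0 ≤ T)
    (ha : ∀ i < m, 0 ≤ a i) (hne : ∀ i < m, a i ≠ T) (hc : Crit κ m a T) :
    Dx m a x y T = -(κ + 2 * m)
      + (Vr x y T * x * SA κ m a x y + Vi x y T * y * SB κ m a x y) / E x y T := by
  have hET : E x y T ≠ 0 := (E_pos hy hT).ne'
  have hA : x ^ 2 + y ^ 2 ≠ 0 := by positivity
  have h1 : Dx m a x y T = ∑ i ∈ range m, (-2 + (Vr x y T * x / E x y T) * (2 * ((x ^ 2 + y ^ 2 - a i) / E x y (a i)))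
      + (Vi x y T * y / E x y T) * (2 * ((x ^ 2 + y ^ 2 + a i) / E x y (a i)))
      - (T - 1) * ((x ^ 2 - y ^ 2 - T) / E x y T) * (2 * (T / (T - a i)))) := by
    unfold Dx
    apply Finset.sum_congr rfl
    intro i hi
    have hi' : i < m := Finset.mem_range.mp hi
    have hE : E x y (a i) ≠ 0 := (E_pos hy (ha i hi')).ne'
    have := kernel_id hE hET (hne i hi')
    have h2 : 2 * (a i * (1 - a i) / (a i - T)) * ((a i - (x ^ 2 - y ^ 2)) / E x y (a i))
      = 2 * (a i * (1 - a i) / (a i - T) * ((a i - (x ^ 2 - y ^ 2)) / E x y (a i))) := by ring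
    rw [h2, this]
    field_simp
    ring
  have h0 := kernel_id0 hA hET (x := x) (y := y) (T := T)
  unfold Crit at hc
  unfold SA SB
  set S1 := ∑ i ∈ range m, 2 * ((x ^ 2 + y ^ 2 - a i) / E x y (a i)) with hS1
  set S2 := ∑ i ∈ range m, 2 * ((x ^ 2 + y ^ 2 + a i) / E x y (a i)) with hS2
  set S3 := ∑ i ∈ range m, 2 * (T / (T - a i)) with hS3
  have e1 : Dx m a x y T = -(2 * m) + (Vr x y T * x / E x y T) * S1 + (Vi x y T * y / E x y T) * S2
     - (T - 1) * ((x ^ 2 - y ^ 2 - T) / E x y T) * S3 := by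
    rw [h1, hS1, hS2, hS3, Finset.sum_sub_distrib, Finset.sum_add_distrib, Finset.sum_add_distrib,
      Finset.mul_sum, Finset.mul_sum, Finset.mul_sum]
    simp only [Finset.sum_const, Finset.card_range, nsmul_eq_mul]
    ring
  rw [e1]
  have h3 : (T - 1) * S3 = - (T - 1) * κ := by linarith
  have h4 : (T - 1) * ((x ^ 2 - y ^ 2 - T) / E x y T) * S3
     = ((x ^ 2 - y ^ 2 - T) / E x y T) * ((T - 1) * S3) := by ring
  rw [h4, h3]
  have h5 : (Vr x y T * x * (κ / (x ^ 2 + y ^ 2) + S1) + Vi x y T * y * (κ / (x ^ 2 + y ^ 2) + S2)) / E x y T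
     = Vr x y T * x / E x y T * S1 + Vi x y T * y / E x y T * S2
       - κ * (-(Vr x y T * x + Vi x y T * y) / ((x ^ 2 + y ^ 2) * E x y T)) := by
    field_simp
    ring
  rw [h5]
  have h6 : -(Vr x y T * x + Vi x y T * y) / ((x ^ 2 + y ^ 2) * E x y T) = -1 - (T - 1) * ((x ^ 2 - y ^ 2 - T) / E x y T) := by
    linarith
  rw [h6]
  ring

/-- The difference is `y^2 Nh / (E E)`. -/
lemma Dx_sub {κ : ℝ} {m : ℕ} {a : ℕ → ℝ} {x y T : ℝ} (hy : 0 < y) (hT : 0 ≤ T)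
    (ha : ∀ i < m, 0 ≤ a i) (hne : ∀ i < m, a i ≠ T) (hc : Crit κ m a T)
    (hx : x * SA κ m a x y = 0) (hxy : SB κ m a 1 y = SB κ m a x y) :
    Dx m a 1 y T - Dx m a x y T
      = y ^ 2 * Nh (SA κ m a 1 y) (SB κ m a x y * (1 - x ^ 2)) x y T / (E 1 y T * E x y T) := by
  have hET : E x y T ≠ 0 := (E_pos hy hT).ne'
  have hET1 : E 1 y T ≠ 0 := (E_pos hy hT).ne'
  rw [Dx_eq hy hT ha hne hc, Dx_eq hy hT ha hne hc, hxy]
  have h1 : Vr x y T * x * SA κ m a x y = 0 := by rw [mul_assoc, hx, mul_zero]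
  rw [h1]
  set g := SA κ m a 1 y
  set t := SB κ m a x y
  unfold Nh Vr Vi qq
  field_simp
  unfold E
  ring

/-- Each summand identity used for the sign of `Nh 0`. -/
lemma z_id {x y w : ℝ} (hE1 : E 1 y w ≠ 0) (hE : E x y w ≠ 0) :
    (2 * (x ^ 2 + y ^ 2) - (1 + y ^ 2) - w) / E 1 y w - (x ^ 2 + y ^ 2 - w) / E x y w
      + ((1 ^ 2 + y ^ 2 + w) / E 1 y w - (x ^ 2 + y ^ 2 + w) / E x y w)
      = 4 * (x ^ 2 + y ^ 2) * (1 - x ^ 2) * ((w - (1 + x ^ 2 + 2 * y ^ 2) / 2) / (E 1 y w * E x y w)) := by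
  field_simp
  unfold E
  ring

lemma b_id {x y w : ℝ} (hE1 : E 1 y w ≠ 0) (hE : E x y w ≠ 0) :
    ((1 ^ 2 + y ^ 2 + w) / E 1 y w - (x ^ 2 + y ^ 2 + w) / E x y w)
      = (1 - x ^ 2) * (qq x y w / (E 1 y w * E x y w)) := by
  field_simp
  unfold E qq
  ring

lemma q_lower {x y w : ℝ} :
    y ^ 2 * (2 * (1 + x ^ 2 + 2 * y ^ 2)) + (1 - x ^ 2) ^ 2 / 4
      + (2 * (1 + x ^ 2) + 8 * y ^ 2) * (w - (1 + x ^ 2 + 2 * y ^ 2) / 2) ≤ qq x y w := by
  unfold qq
  nlinarith [sq_nonneg (w - (1 + x ^ 2 + 2 * y ^ 2) / 2)]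

/-- The key inequality `A * SA(1) < (1-x^2) * SB`. -/
lemma key_neg {κ : ℝ} {m : ℕ} {a : ℕ → ℝ} {x y : ℝ} (hκ : 0 ≤ κ) (hn : 0 < κ + 2 * m)
    (hy : 0 < y) (hy1 : y < 1) (hx0 : 0 ≤ x) (hx1 : x < 1)
    (ha : ∀ i < m, 0 ≤ a i)
    (hx : x * SA κ m a x y = 0) (hxy : SB κ m a 1 y = SB κ m a x y) :
    SA κ m a 1 y * (x ^ 2 + y ^ 2) < SB κ m a x y * (1 - x ^ 2) := by
  have hd : 0 < 1 - x ^ 2 := by nlinarith
  have hy2 : 0 < y ^ 2 := by positivity
  have hA1 : (0 : ℝ) < 1 + y ^ 2 := by positivity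
  have hA : 0 < x ^ 2 + y ^ 2 := by positivity
  -- reduction
  have key : κ * ((2 * (x ^ 2 + y ^ 2) - (1 + y ^ 2) - 0) / E 1 y 0)
      + ∑ i ∈ range m, 2 * ((2 * (x ^ 2 + y ^ 2) - (1 + y ^ 2) - a i) / E 1 y (a i)) < 0 := by
    rcases eq_or_lt_of_le hx0 with h0 | h0
    · subst h0
      have hneg : ∀ w : ℝ, 0 ≤ w → (2 * ((0 : ℝ) ^ 2 + y ^ 2) - (1 + y ^ 2) - w) / E 1 y w < 0 := by
        intro w hw
        apply div_neg_of_neg_of_pos _ (E_pos hy hw)
        nlinarith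
      have h1 := hneg 0 le_rfl
      rcases Nat.eq_zero_or_pos m with hm | hm
      · subst hm
        have : 0 < κ := by simpa using hn
        simp only [Finset.range_zero, Finset.sum_empty, add_zero]
        nlinarith
      · have h2 : ∑ i ∈ range m, 2 * ((2 * ((0 : ℝ) ^ 2 + y ^ 2) - (1 + y ^ 2) - a i) / E 1 y (a i)) < 0 := by
          apply Finset.sum_neg
          · intro i hi
            have := hneg (a i) (ha i (Finset.mem_range.mp hi))
            linarith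
          · exact ⟨0, Finset.mem_range.mpr hm⟩
        nlinarith
    · by_contra hcon
      push Not at hcon
      have hSA : SA κ m a x y = 0 := by
        rcases mul_eq_zero.mp hx with h | h
        · exact absurd h h0.ne'
        · exact h
      have hE1 : ∀ w : ℝ, 0 ≤ w → E 1 y w ≠ 0 := fun w hw => (E_pos hy hw).ne'
      have hE : ∀ w : ℝ, 0 ≤ w → E x y w ≠ 0 := fun w hw => (E_pos hy hw).ne'
      have hEz : E x y 0 = (x ^ 2 + y ^ 2) ^ 2 := by unfold E; ring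
      have hEz1 : E 1 y 0 = (1 ^ 2 + y ^ 2) ^ 2 := by unfold E; ring
      -- the sums
      set f1 : ℝ → ℝ := fun w => (2 * (x ^ 2 + y ^ 2) - (1 + y ^ 2) - w) / E 1 y w with hf1
      set f2 : ℝ → ℝ := fun w => (x ^ 2 + y ^ 2 - w) / E x y w with hf2
      set f3 : ℝ → ℝ := fun w => (1 ^ 2 + y ^ 2 + w) / E 1 y w - (x ^ 2 + y ^ 2 + w) / E x y w with hf3
      set f4 : ℝ → ℝ := fun w => (w - (1 + x ^ 2 + 2 * y ^ 2) / 2) / (E 1 y w * E x y w) with hf4
      set f5 : ℝ → ℝ := fun w => qq x y w / (E 1 y w * E x y w) with hf5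
      set f6 : ℝ → ℝ := fun w => 1 / (E 1 y w * E x y w) with hf6
      have s2 : κ * f2 0 + ∑ i ∈ range m, 2 * f2 (a i) = 0 := by
        have : κ * f2 0 = κ / (x ^ 2 + y ^ 2) := by
          simp only [hf2, hEz, sub_zero]
          field_simp
        rw [this]
        exact hSA
      have s3 : κ * f3 0 + ∑ i ∈ range m, 2 * f3 (a i) = 0 := by
        have e1 : κ * f3 0 = κ / (1 ^ 2 + y ^ 2) - κ / (x ^ 2 + y ^ 2) := by
          simp only [hf3, hEz, hEz1, add_zero]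
          field_simp
        have e2 : ∑ i ∈ range m, 2 * f3 (a i)
            = ∑ i ∈ range m, 2 * ((1 ^ 2 + y ^ 2 + a i) / E 1 y (a i))
              - ∑ i ∈ range m, 2 * ((x ^ 2 + y ^ 2 + a i) / E x y (a i)) := by
          rw [← Finset.sum_sub_distrib]
          apply Finset.sum_congr rfl
          intro i _
          simp only [hf3]
          ring
        rw [e1, e2]
        unfold SB at hxy
        linarith
      have s4 : 0 ≤ κ * f4 0 + ∑ i ∈ range m, 2 * f4 (a i) := by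
        have e : ∀ w : ℝ, 0 ≤ w → f1 w - f2 w + f3 w = 4 * (x ^ 2 + y ^ 2) * (1 - x ^ 2) * f4 w := by
          intro w hw
          exact z_id (hE1 w hw) (hE w hw)
        have e' : (κ * f1 0 + ∑ i ∈ range m, 2 * f1 (a i)) - (κ * f2 0 + ∑ i ∈ range m, 2 * f2 (a i))
            + (κ * f3 0 + ∑ i ∈ range m, 2 * f3 (a i))
            = 4 * (x ^ 2 + y ^ 2) * (1 - x ^ 2) * (κ * f4 0 + ∑ i ∈ range m, 2 * f4 (a i)) := by
          have : ∑ i ∈ range m, 2 * f1 (a i) - ∑ i ∈ range m, 2 * f2 (a i) + ∑ i ∈ range m, 2 * f3 (a i)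
              = 4 * (x ^ 2 + y ^ 2) * (1 - x ^ 2) * ∑ i ∈ range m, 2 * f4 (a i) := by
            rw [← Finset.sum_sub_distrib, ← Finset.sum_add_distrib, Finset.mul_sum]
            apply Finset.sum_congr rfl
            intro i hi
            have := e (a i) (ha i (Finset.mem_range.mp hi))
            linear_combination 2 * this
          have h0' := e 0 le_rfl
          linear_combination κ * h0' + this
        rw [s2, s3] at e'
        have hpos : 0 < 4 * (x ^ 2 + y ^ 2) * (1 - x ^ 2) := by positivity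
        have hge : 0 ≤ 4 * (x ^ 2 + y ^ 2) * (1 - x ^ 2) * (κ * f4 0 + ∑ i ∈ range m, 2 * f4 (a i)) := by
          rw [← e']
          linarith
        exact nonneg_of_mul_nonneg_right hge hpos
      have s5 : κ * f5 0 + ∑ i ∈ range m, 2 * f5 (a i) = 0 := by
        have e : ∀ w : ℝ, 0 ≤ w → f3 w = (1 - x ^ 2) * f5 w := by
          intro w hw
          exact b_id (hE1 w hw) (hE w hw)
        have : ∑ i ∈ range m, 2 * f3 (a i) = (1 - x ^ 2) * ∑ i ∈ range m, 2 * f5 (a i) := by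
          rw [Finset.mul_sum]
          apply Finset.sum_congr rfl
          intro i hi
          rw [e (a i) (ha i (Finset.mem_range.mp hi))]
          ring
        rw [this, e 0 le_rfl] at s3
        have h' : (1 - x ^ 2) * (κ * f5 0 + ∑ i ∈ range m, 2 * f5 (a i)) = 0 := by linarith
        rcases mul_eq_zero.mp h' with h | h
        · exact absurd h hd.ne'
        · exact h
      have hf6pos : ∀ w : ℝ, 0 ≤ w → 0 < f6 w := fun w hw => by
        simp only [hf6]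
        have := E_pos (x := 1) hy hw
        have := E_pos (x := x) hy hw
        positivity
      have s6 : 0 < κ * f6 0 + ∑ i ∈ range m, 2 * f6 (a i) := by
        rcases Nat.eq_zero_or_pos m with hm | hm
        · subst hm
          have : 0 < κ := by simpa using hn
          simp only [Finset.range_zero, Finset.sum_empty, add_zero]
          have := hf6pos 0 le_rfl
          positivity
        · have h2 : 0 < ∑ i ∈ range m, 2 * f6 (a i) := by
            apply Finset.sum_pos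
            · intro i hi
              have := hf6pos (a i) (ha i (Finset.mem_range.mp hi))
              linarith
            · exact ⟨0, Finset.mem_range.mpr hm⟩
          have := hf6pos 0 le_rfl
          have : 0 ≤ κ * f6 0 := by positivity
          linarith
      have hlow : ∀ w : ℝ, 0 ≤ w → (y ^ 2 * (2 * (1 + x ^ 2 + 2 * y ^ 2)) + (1 - x ^ 2) ^ 2 / 4) * f6 w
          + (2 * (1 + x ^ 2) + 8 * y ^ 2) * f4 w ≤ f5 w := by
        intro w hw
        have hq := q_lower (x := x) (y := y) (w := w)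
        have hp : 0 < E 1 y w * E x y w := mul_pos (E_pos hy hw) (E_pos hy hw)
        simp only [hf4, hf5, hf6]
        rw [mul_one_div, mul_div_assoc', ← add_div]
        exact div_le_div_of_nonneg_right hq hp.le
      have hfin : (y ^ 2 * (2 * (1 + x ^ 2 + 2 * y ^ 2)) + (1 - x ^ 2) ^ 2 / 4) * (κ * f6 0 + ∑ i ∈ range m, 2 * f6 (a i))
          + (2 * (1 + x ^ 2) + 8 * y ^ 2) * (κ * f4 0 + ∑ i ∈ range m, 2 * f4 (a i))
          ≤ κ * f5 0 + ∑ i ∈ range m, 2 * f5 (a i) := by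
        have h1 := mul_le_mul_of_nonneg_left (hlow 0 le_rfl) hκ
        have h2 : (y ^ 2 * (2 * (1 + x ^ 2 + 2 * y ^ 2)) + (1 - x ^ 2) ^ 2 / 4) * (∑ i ∈ range m, 2 * f6 (a i))
          + (2 * (1 + x ^ 2) + 8 * y ^ 2) * (∑ i ∈ range m, 2 * f4 (a i)) ≤ ∑ i ∈ range m, 2 * f5 (a i) := by
          rw [Finset.mul_sum, Finset.mul_sum, ← Finset.sum_add_distrib]
          apply Finset.sum_le_sum
          intro i hi
          have := hlow (a i) (ha i (Finset.mem_range.mp hi))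
          linarith
        linarith
      rw [s5] at hfin
      have hc1 : 0 < y ^ 2 * (2 * (1 + x ^ 2 + 2 * y ^ 2)) + (1 - x ^ 2) ^ 2 / 4 := by positivity
      have hc2 : 0 < 2 * (1 + x ^ 2) + 8 * y ^ 2 := by positivity
      have := mul_pos hc1 s6
      have := mul_nonneg hc2.le s4
      linarith
  -- now deduce
  have hE1 : ∀ w : ℝ, 0 ≤ w → E 1 y w ≠ 0 := fun w hw => (E_pos hy hw).ne'
  have hEz1 : E 1 y 0 = (1 + y ^ 2) ^ 2 := by unfold E; ring
  rw [← hxy]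
  have hid : SA κ m a 1 y * (x ^ 2 + y ^ 2) - SB κ m a 1 y * (1 - x ^ 2)
      = (1 + y ^ 2) * (κ * ((2 * (x ^ 2 + y ^ 2) - (1 + y ^ 2) - 0) / E 1 y 0)
      + ∑ i ∈ range m, 2 * ((2 * (x ^ 2 + y ^ 2) - (1 + y ^ 2) - a i) / E 1 y (a i))) := by
    unfold SA SB
    have e1 : (∑ i ∈ range m, 2 * ((1 ^ 2 + y ^ 2 - a i) / E 1 y (a i))) * (x ^ 2 + y ^ 2)
       - (∑ i ∈ range m, 2 * ((1 ^ 2 + y ^ 2 + a i) / E 1 y (a i))) * (1 - x ^ 2)
       = (1 + y ^ 2) * ∑ i ∈ range m, 2 * ((2 * (x ^ 2 + y ^ 2) - (1 + y ^ 2) - a i) / E 1 y (a i)) := by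
      rw [Finset.sum_mul, Finset.sum_mul, ← Finset.sum_sub_distrib, Finset.mul_sum]
      apply Finset.sum_congr rfl
      intro i hi
      have := hE1 (a i) (ha i (Finset.mem_range.mp hi))
      field_simp
      ring
    have e2 : κ / (1 ^ 2 + y ^ 2) * (x ^ 2 + y ^ 2) - κ / (1 ^ 2 + y ^ 2) * (1 - x ^ 2)
       = (1 + y ^ 2) * (κ * ((2 * (x ^ 2 + y ^ 2) - (1 + y ^ 2) - 0) / E 1 y 0)) := by
      rw [hEz1]
      have : (1 : ℝ) ^ 2 + y ^ 2 ≠ 0 := by positivity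
      have : (1 : ℝ) + y ^ 2 ≠ 0 := by positivity
      field_simp
      ring
    linear_combination e1 + e2
  have := mul_neg_of_pos_of_neg hA1 key
  linarith

/-- positivity of `SA` at `1` -/
lemma SA_pos {κ : ℝ} {m : ℕ} {a : ℕ → ℝ} {y : ℝ} (hκ : 0 ≤ κ) (hn : 0 < κ + 2 * m)
    (hy : 0 < y) (ha : ∀ i < m, 0 ≤ a i) (ha1 : ∀ i < m, a i ≤ 1) : 0 < SA κ m a 1 y := by
  unfold SA
  have hy2 : 0 < y ^ 2 := by positivity
  rcases Nat.eq_zero_or_pos m with hm | hm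
  · subst hm
    have : 0 < κ := by simpa using hn
    simp only [Finset.range_zero, Finset.sum_empty, add_zero]
    positivity
  · have h2 : 0 < ∑ i ∈ range m, 2 * ((1 ^ 2 + y ^ 2 - a i) / E 1 y (a i)) := by
      apply Finset.sum_pos
      · intro i hi
        have hi' := Finset.mem_range.mp hi
        have h1 := E_pos (x := 1) hy (ha i hi')
        have h3 := ha1 i hi'
        have : 0 < (1 ^ 2 + y ^ 2 - a i) := by nlinarith
        positivity
      · exact ⟨0, Finset.mem_range.mpr hm⟩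
    have : 0 ≤ κ / (1 ^ 2 + y ^ 2) := by positivity
    linarith

lemma SB_pos {κ : ℝ} {m : ℕ} {a : ℕ → ℝ} {x y : ℝ} (hκ : 0 ≤ κ) (hn : 0 < κ + 2 * m)
    (hy : 0 < y) (ha : ∀ i < m, 0 ≤ a i) : 0 < SB κ m a x y := by
  unfold SB
  have hy2 : 0 < y ^ 2 := by positivity
  rcases Nat.eq_zero_or_pos m with hm | hm
  · subst hm
    have : 0 < κ := by simpa using hn
    simp only [Finset.range_zero, Finset.sum_empty, add_zero]
    positivity
  · have h2 : 0 < ∑ i ∈ range m, 2 * ((x ^ 2 + y ^ 2 + a i) / E x y (a i)) := by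
      apply Finset.sum_pos
      · intro i hi
        have hi' := Finset.mem_range.mp hi
        have h1 := E_pos (x := x) hy (ha i hi')
        have h3 := ha i hi'
        have : 0 < (x ^ 2 + y ^ 2 + a i) := by positivity
        positivity
      · exact ⟨0, Finset.mem_range.mpr hm⟩
    have : 0 ≤ κ / (x ^ 2 + y ^ 2) := by positivity
    linarith

/-- Single sign change for a cubic with the sign pattern. -/
lemma cubic_cross {n0 n1 n2 n3 : ℝ} (h0 : n0 < 0) (h1 : 0 < n0 + n1 + n2 + n3)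
    (h : n3 ≤ 0 ∨ (0 ≤ n2 ∧ 0 ≤ n3)) {T T' : ℝ} (hT : 0 ≤ T) (hTT : T < T') (hT' : T' ≤ 1)
    (hN : 0 ≤ n0 + n1 * T + n2 * T ^ 2 + n3 * T ^ 3) :
    0 < n0 + n1 * T' + n2 * T' ^ 2 + n3 * T' ^ 3 := by
  have hTpos : 0 < T := by
    rcases eq_or_lt_of_le hT with h' | h'
    · subst h'
      norm_num at hN
      linarith
    · exact h'
  rcases h with h3 | ⟨h2, h3⟩
  · by_contra hcon
    push Not at hcon
    have hT'1 : T' < 1 := by
      rcases eq_or_lt_of_le hT' with h' | h'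
      · subst h'
        norm_num at hcon
        linarith
      · exact h'
    set p := n0 + n1 * T + n2 * T ^ 2 + n3 * T ^ 3 with hp
    set p' := n0 + n1 * T' + n2 * T' ^ 2 + n3 * T' ^ 3 with hp'
    set p1 := n0 + n1 + n2 + n3 with hp1
    have hd : 0 < T' - T := by linarith
    have hid : n3 * (T * T' * (T' - T) * (1 - T) * (1 - T'))
        = - n0 * ((T' - T) * (1 - T) * (1 - T')) + p * (T' * (1 - T'))
          - p' * (T * (1 - T)) + p1 * (T * T' * (T' - T)) := by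
      rw [hp, hp', hp1]; ring
    have hl : n3 * (T * T' * (T' - T) * (1 - T) * (1 - T')) ≤ 0 := by
      apply mul_nonpos_of_nonpos_of_nonneg h3
      have : 0 < T' := by linarith
      have : 0 < 1 - T := by linarith
      have : 0 < 1 - T' := by linarith
      positivity
    have a1 : 0 < - n0 * ((T' - T) * (1 - T) * (1 - T')) := by
      have : 0 < 1 - T := by linarith
      have : 0 < 1 - T' := by linarith
      have : 0 < -n0 := by linarith
      positivity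
    have a2 : 0 ≤ p * (T' * (1 - T')) := by
      have : 0 < T' := by linarith
      have : 0 < 1 - T' := by linarith
      positivity
    have a3 : 0 ≤ - p' * (T * (1 - T)) := by
      have : 0 < 1 - T := by linarith
      have : 0 ≤ -p' := by linarith
      positivity
    have a4 : 0 < p1 * (T * T' * (T' - T)) := by
      have : 0 < T' := by linarith
      positivity
    linarith
  · have hT'pos : 0 < T' := by linarith
    have hd : 0 < T' - T := by linarith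
    have hid : T * (n0 + n1 * T' + n2 * T' ^ 2 + n3 * T' ^ 3)
      = T' * (n0 + n1 * T + n2 * T ^ 2 + n3 * T ^ 3) + (T' - T) * (-n0)
        + n2 * (T * T' * (T' - T)) + n3 * (T * T' * (T' - T) * (T' + T)) := by ring
    have : 0 < T * (n0 + n1 * T' + n2 * T' ^ 2 + n3 * T' ^ 3) := by
      rw [hid]
      have : 0 < (T' - T) * (-n0) := mul_pos hd (by linarith)
      positivity
    exact pos_of_mul_pos_right this hT

lemma Nh_cross {g r x y : ℝ} (hg : 0 < g) (hr : 0 < r) (hy : 0 < y) (_hx0 : 0 ≤ x) (_hx1 : x < 1)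
    (hgr : g * (x ^ 2 + y ^ 2) < r) {T T' : ℝ} (hT : 0 ≤ T) (hTT : T < T') (hT' : T' ≤ 1)
    (hN : 0 ≤ Nh g r x y T) : 0 < Nh g r x y T' := by
  have hy2 : 0 < y ^ 2 := by positivity
  have hA : 0 < x ^ 2 + y ^ 2 := by positivity
  set n0 := g * (1 + y ^ 2) * (x ^ 2 + y ^ 2) ^ 2 - r * ((1 + y ^ 2) * (x ^ 2 + y ^ 2)) with hn0
  set n1 := g * (3 * (x ^ 2 + y ^ 2) ^ 2 - 2 * (1 + y ^ 2) * (x ^ 2 - y ^ 2))
    + r * ((1 + y ^ 2) * (x ^ 2 + y ^ 2) - (1 + x ^ 2 - 2 * y ^ 2)) with hn1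
  set n2 := g * (1 + 7 * y ^ 2 - 6 * x ^ 2) + r * (4 + x ^ 2 - 2 * y ^ 2) with hn2
  set n3 := 3 * (g - r) with hn3
  have hform : ∀ T, Nh g r x y T = n0 + n1 * T + n2 * T ^ 2 + n3 * T ^ 3 := by
    intro T
    rw [hn0, hn1, hn2, hn3]
    unfold Nh E qq
    ring
  rw [hform] at hN ⊢
  refine cubic_cross ?_ ?_ ?_ hT hTT hT' hN
  · rw [hn0]
    have : g * (1 + y ^ 2) * (x ^ 2 + y ^ 2) ^ 2 - r * ((1 + y ^ 2) * (x ^ 2 + y ^ 2))
      = (1 + y ^ 2) * (x ^ 2 + y ^ 2) * (g * (x ^ 2 + y ^ 2) - r) := by ring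
    rw [this]
    apply mul_neg_of_pos_of_neg
    · positivity
    · linarith
  · have h1 := hform 1
    have h2 : Nh g r x y 1 = g * (1 + y ^ 2 + 3 * 1) * E x y 1 := by unfold Nh; ring
    have h3 := E_pos (x := x) hy (zero_le_one (α := ℝ))
    have h4 : 0 < Nh g r x y 1 := by rw [h2]; positivity
    have h5 : n0 + n1 + n2 + n3 = n0 + n1 * 1 + n2 * 1 ^ 2 + n3 * 1 ^ 3 := by ring
    rw [h5, ← h1]
    exact h4
  · rcases le_or_gt g r with hc | hc
    · left
      rw [hn3]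
      linarith
    · right
      refine ⟨?_, by rw [hn3]; linarith⟩
      have hA1 : x ^ 2 + y ^ 2 < 1 := by
        by_contra hcon
        push Not at hcon
        nlinarith
      rw [hn2]
      rcases le_or_gt 0 (1 + 7 * y ^ 2 - 6 * x ^ 2) with h | h
      · have : 0 < 4 + x ^ 2 - 2 * y ^ 2 := by nlinarith [sq_nonneg x]
        positivity
      · have h1 : r * (1 + 7 * y ^ 2 - 6 * x ^ 2) ≤ g * (x ^ 2 + y ^ 2) * (1 + 7 * y ^ 2 - 6 * x ^ 2) := by
          nlinarith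
        have h2 : 0 < (1 + 7 * y ^ 2 - 6 * x ^ 2) + (x ^ 2 + y ^ 2) * (4 + x ^ 2 - 2 * y ^ 2) := by
          have e : (1 + 7 * y ^ 2 - 6 * x ^ 2) + (x ^ 2 + y ^ 2) * (4 + x ^ 2 - 2 * y ^ 2)
             = (1 - x ^ 2) ^ 2 + y ^ 2 * (11 - x ^ 2 - 2 * y ^ 2) := by ring
          rw [e]
          have : 0 < 11 - x ^ 2 - 2 * y ^ 2 := by nlinarith [sq_nonneg x]
          positivity
        have h3 : 0 < (x ^ 2 + y ^ 2) * (g * (1 + 7 * y ^ 2 - 6 * x ^ 2) + r * (4 + x ^ 2 - 2 * y ^ 2)) := by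
          have e : (x ^ 2 + y ^ 2) * (g * (1 + 7 * y ^ 2 - 6 * x ^ 2) + r * (4 + x ^ 2 - 2 * y ^ 2))
            = g * (x ^ 2 + y ^ 2) * (1 + 7 * y ^ 2 - 6 * x ^ 2)
              + r * ((x ^ 2 + y ^ 2) * (4 + x ^ 2 - 2 * y ^ 2)) := by ring
          rw [e]
          have := mul_pos hr h2
          nlinarith
        exact (pos_of_mul_pos_right h3 hA.le).le

lemma Nh_one_pos {g r x y : ℝ} (hg : 0 < g) (hy : 0 < y) : 0 < Nh g r x y 1 := by
  have h2 : Nh g r x y 1 = g * (1 + y ^ 2 + 3 * 1) * E x y 1 := by unfold Nh; ring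
  have h3 := E_pos (x := x) hy (zero_le_one (α := ℝ))
  rw [h2]; positivity

end Pool.Agent.Helper69.CB
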