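import Mathlib

/-! `|T_n(x+iy)| ≤ |T_n(1+iy)|` for `|x| ≤ 1` by domination of power series coefficients. -/

namespace Pool.Agent.Helper69.CB.DS

open Polynomial PowerSeries Finset

noncomputable section

/-- coefficientwise domination -/
def Dom (f g : ℝ⟦X⟧) : Prop := ∀ n, |coeff n f| ≤ coeff n g

lemma Dom.add {f g f' g' : ℝ⟦X⟧} (h : Dom f g) (h' : Dom f' g') : Dom (f + f') (g + g') := by
  intro n
  rw [map_add, map_add]
  exact (abs_add_le _ _).trans (add_le_add (h n) (h' n))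

lemma Dom.nonneg {f g : ℝ⟦X⟧} (h : Dom f g) (n : ℕ) : 0 ≤ coeff n g := (abs_nonneg _).trans (h n)

lemma Dom.mul {f g f' g' : ℝ⟦X⟧} (h : Dom f g) (h' : Dom f' g') : Dom (f * f') (g * g') := by
  intro n
  rw [PowerSeries.coeff_mul, PowerSeries.coeff_mul]
  refine (Finset.abs_sum_le_sum_abs _ _).trans (Finset.sum_le_sum ?_)
  intro p _
  rw [abs_mul]
  exact mul_le_mul (h _) (h' _) (abs_nonneg _) (h.nonneg _)

lemma Dom.fix {W W' S S' R R' : ℝ⟦X⟧} (hW : Dom W W') (hR : Dom R R')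
    (h0 : coeff 0 W = 0) (h0' : coeff 0 W' = 0)
    (hS : S = W * S + R) (hS' : S' = W' * S' + R') : Dom S S' := by
  intro n
  induction n using Nat.strong_induction_on with
  | _ n ih =>
    rw [hS, hS', map_add, map_add, PowerSeries.coeff_mul, PowerSeries.coeff_mul]
    refine (abs_add_le _ _).trans (add_le_add ?_ (hR n))
    refine (Finset.abs_sum_le_sum_abs _ _).trans (Finset.sum_le_sum ?_)
    intro p hp
    rw [Finset.HasAntidiagonal.mem_antidiagonal] at hp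
    rcases Nat.eq_zero_or_pos p.1 with h1 | h1
    · rw [h1, h0, h0']
      simp
    · rw [abs_mul]
      exact mul_le_mul (hW _) (ih p.2 (by omega)) (abs_nonneg _) (hW.nonneg _)

lemma Dom.refl_of_nonneg {f : ℝ⟦X⟧} (h : ∀ n, 0 ≤ coeff n f) : Dom f f := by
  intro n
  rw [abs_of_nonneg (h n)]

/-- generating function of `T` -/
def GT (c : ℝ) : ℝ⟦X⟧ := PowerSeries.mk fun n => (Chebyshev.T ℝ n).eval c
/-- generating function of `U` -/
def GU (c : ℝ) : ℝ⟦X⟧ := PowerSeries.mk fun n => (Chebyshev.U ℝ n).eval c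
def A1 : ℝ⟦X⟧ := PowerSeries.mk fun _ => (1 : ℝ)

/-- `1 - 2 c r + r^2` -/
def Pc (c : ℝ) : ℝ⟦X⟧ := 1 - PowerSeries.C (2 * c) * PowerSeries.X + PowerSeries.X ^ 2

lemma coeff_Pc_mul (c : ℝ) (f : ℝ⟦X⟧) (n : ℕ) :
    coeff (n + 2) (Pc c * f) = coeff (n + 2) f - 2 * c * coeff (n + 1) f + coeff n f := by
  have : Pc c * f = f - PowerSeries.C (2 * c) * (PowerSeries.X * f) + PowerSeries.X * (PowerSeries.X * f) := by
    unfold Pc; ring
  rw [this, map_add, map_sub, PowerSeries.coeff_C_mul, PowerSeries.coeff_succ_X_mul,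
    PowerSeries.coeff_succ_X_mul, PowerSeries.coeff_succ_X_mul]

lemma coeff_Pc_mul_zero (c : ℝ) (f : ℝ⟦X⟧) : coeff 0 (Pc c * f) = coeff 0 f := by
  have : Pc c * f = f - PowerSeries.C (2 * c) * (PowerSeries.X * f) + PowerSeries.X * (PowerSeries.X * f) := by
    unfold Pc; ring
  rw [this, map_add, map_sub, PowerSeries.coeff_C_mul, PowerSeries.coeff_zero_X_mul,
    PowerSeries.coeff_zero_X_mul]
  ring

lemma coeff_Pc_mul_one (c : ℝ) (f : ℝ⟦X⟧) :
    coeff 1 (Pc c * f) = coeff 1 f - 2 * c * coeff 0 f := by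
  have : Pc c * f = f - PowerSeries.C (2 * c) * (PowerSeries.X * f) + PowerSeries.X * (PowerSeries.X * f) := by
    unfold Pc; ring
  have e1 : ∀ g : ℝ⟦X⟧, coeff 1 (PowerSeries.X * g) = coeff 0 g := fun g =>
    PowerSeries.coeff_succ_X_mul 0 g
  rw [this, map_add, map_sub, PowerSeries.coeff_C_mul, e1, e1, PowerSeries.coeff_zero_X_mul]
  ring

lemma Pc_mul_GU (c : ℝ) : Pc c * GU c = 1 := by
  ext n
  match n with
  | 0 =>
    rw [coeff_Pc_mul_zero]
    simp [GU]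
  | 1 =>
    rw [coeff_Pc_mul_one, PowerSeries.coeff_one]
    simp [GU]
  | n + 2 =>
    rw [coeff_Pc_mul, PowerSeries.coeff_one]
    simp only [GU, PowerSeries.coeff_mk]
    have := Chebyshev.U_add_two ℝ (n : ℤ)
    push_cast
    rw [this]
    simp

lemma Pc_mul_GT (c : ℝ) : Pc c * GT c = 1 - PowerSeries.C c * PowerSeries.X := by
  ext n
  match n with
  | 0 =>
    rw [coeff_Pc_mul_zero]
    simp [GT]
  | 1 =>
    rw [coeff_Pc_mul_one]
    simp [GT]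
    ring
  | n + 2 =>
    rw [coeff_Pc_mul]
    have h1 : coeff (n + 2) (1 - PowerSeries.C c * PowerSeries.X : ℝ⟦X⟧) = 0 := by
      rw [map_sub, PowerSeries.coeff_C_mul, PowerSeries.coeff_one, PowerSeries.coeff_X]
      simp
    rw [h1]
    simp only [GT, PowerSeries.coeff_mk]
    have := Chebyshev.T_add_two ℝ (n : ℤ)
    push_cast
    rw [this]
    simp

lemma A1_mul : (1 - PowerSeries.X) * A1 = 1 := by
  ext n
  match n with
  | 0 => simp [A1, sub_mul]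
  | n + 1 =>
    rw [sub_mul, one_mul, map_sub, PowerSeries.coeff_succ_X_mul, PowerSeries.coeff_one]
    simp [A1]

/-- the sum for fixed `C, c` -/
def SS (C c : ℝ) : ℝ⟦X⟧ := PowerSeries.mk fun n =>
  if n = 0 then 0 else 2 * ((Chebyshev.T ℝ n).eval C + (Chebyshev.T ℝ n).eval c)

lemma SS_eq (C c : ℝ) : SS C c = 2 * GT C + 2 * GT c - 4 := by
  ext n
  have h2 : ∀ f : ℝ⟦X⟧, coeff n (2 * f) = 2 * coeff n f := by
    intro f
    rw [show (2 : ℝ⟦X⟧) = PowerSeries.C 2 from (map_ofNat (PowerSeries.C (R := ℝ)) 2).symm,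
      PowerSeries.coeff_C_mul]
  have h4 : coeff n (4 : ℝ⟦X⟧) = if n = 0 then 4 else 0 := by
    rw [show (4 : ℝ⟦X⟧) = PowerSeries.C 4 from (map_ofNat (PowerSeries.C (R := ℝ)) 4).symm,
      PowerSeries.coeff_C]
  rw [map_sub, map_add, h2, h2, h4]
  simp only [SS, GT, PowerSeries.coeff_mk]
  rcases Nat.eq_zero_or_pos n with h | h
  · subst h; simp; norm_num
  · have : n ≠ 0 := by omega
    simp [this]
    ring

lemma ring_id {R : Type*} [CommRing R] (gC gc gx ux a kC kc kx kY r : R)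
    (eC : (1 - 2 * kC * r + r ^ 2) * gC = 1 - kC * r)
    (ec : (1 - 2 * kc * r + r ^ 2) * gc = 1 - kc * r)
    (ex : (1 - 2 * kx * r + r ^ 2) * gx = 1 - kx * r)
    (eU : (1 - 2 * kx * r + r ^ 2) * ux = 1)
    (eA : (1 - r) * a = 1)
    (hcC : kC + kc = 1 + kx + kY) (hcc : kC * kc = kx - kY) :
    (1 - r) ^ 2 * (1 - 2 * kx * r + r ^ 2) * (1 - 2 * kC * r + r ^ 2) * (1 - 2 * kc * r + r ^ 2)
      * (2 * gC + 2 * gc - 4)
    = (1 - r) ^ 2 * (1 - 2 * kx * r + r ^ 2) * (1 - 2 * kC * r + r ^ 2) * (1 - 2 * kc * r + r ^ 2)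
      * (2 * kY * r * (1 + r) ^ 2 * a ^ 2 * ux * (2 * gC + 2 * gc - 4) +
        (2 * a + 2 * gx - 4 + 2 * kY * r * (1 + r) * (1 + 3 * r) * a ^ 2 * ux)) := by
  set DC := 1 - 2 * kC * r + r ^ 2 with hDC
  set Dc := 1 - 2 * kc * r + r ^ 2 with hDc
  set Dx := 1 - 2 * kx * r + r ^ 2 with hDx
  set NS := 2 * Dc * (1 - kC * r) + 2 * DC * (1 - kc * r) - 4 * (DC * Dc) with hNS
  set NR := 2 * (1 - r) * Dx + 2 * (1 - r) ^ 2 * (1 - kx * r) - 4 * ((1 - r) ^ 2 * Dx)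
    + 2 * kY * r * (1 + r) * (1 + 3 * r) with hNR
  have s1 : DC * Dc * (2 * gC + 2 * gc - 4) = NS := by
    rw [hNS]
    linear_combination 2 * Dc * eC + 2 * DC * ec
  have eA2 : (1 - r) ^ 2 * a ^ 2 = 1 := by
    have : (1 - r) ^ 2 * a ^ 2 = ((1 - r) * a) ^ 2 := by ring
    rw [this, eA, one_pow]
  have s2 : (1 - r) ^ 2 * Dx * (2 * kY * r * (1 + r) ^ 2 * a ^ 2 * ux) = 2 * kY * r * (1 + r) ^ 2 := by
    linear_combination (2 * kY * r * (1 + r) ^ 2) * ((Dx * ux) * eA2 + eU)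
  have s3 : (1 - r) ^ 2 * Dx * (2 * a + 2 * gx - 4 + 2 * kY * r * (1 + r) * (1 + 3 * r) * a ^ 2 * ux) = NR := by
    rw [hNR]
    linear_combination 2 * (1 - r) * Dx * eA + 2 * (1 - r) ^ 2 * ex
      + (2 * kY * r * (1 + r) * (1 + 3 * r)) * ((Dx * ux) * eA2 + eU)
  have i1 : DC * Dc = (1 - r) ^ 2 * Dx - 2 * kY * r * (1 + r) ^ 2 := by
    rw [hDC, hDc, hDx]
    linear_combination (-2 * (r + r ^ 3)) * hcC + 4 * r ^ 2 * hcc
  have i2 : NS = NR := by
    rw [hNS, hNR, hDC, hDc, hDx]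
    linear_combination (2 * r + 6 * r ^ 3) * hcC - 8 * r ^ 2 * hcc
  calc (1 - r) ^ 2 * Dx * DC * Dc * (2 * gC + 2 * gc - 4)
      = (1 - r) ^ 2 * Dx * (DC * Dc * (2 * gC + 2 * gc - 4)) := by ring
    _ = (1 - r) ^ 2 * Dx * NS := by rw [s1]
    _ = 2 * kY * r * (1 + r) ^ 2 * NS + (DC * Dc) * NS := by rw [i1]; ring
    _ = 2 * kY * r * (1 + r) ^ 2 * (DC * Dc * (2 * gC + 2 * gc - 4)) + (DC * Dc) * NR := by rw [s1, i2]
    _ = (1 - r) ^ 2 * Dx * (2 * kY * r * (1 + r) ^ 2 * a ^ 2 * ux) * (DC * Dc * (2 * gC + 2 * gc - 4))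
        + (DC * Dc) * ((1 - r) ^ 2 * Dx * (2 * a + 2 * gx - 4 + 2 * kY * r * (1 + r) * (1 + 3 * r) * a ^ 2 * ux)) := by
      rw [s2, s3]
    _ = _ := by ring

/-- `W` -/
def Wf (x Y : ℝ) : ℝ⟦X⟧ :=
  PowerSeries.C (2 * Y) * PowerSeries.X * (1 + PowerSeries.X) ^ 2 * A1 ^ 2 * GU x

/-- `R` -/
def Rf (x Y : ℝ) : ℝ⟦X⟧ :=
  (PowerSeries.mk fun n => if n = 0 then 0 else 2 * (1 + (Chebyshev.T ℝ n).eval x))
  + PowerSeries.C (2 * Y) * PowerSeries.X * (1 + PowerSeries.X) * (1 + 3 * PowerSeries.X) * A1 ^ 2 * GU x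

lemma SS_fix {C c x Y : ℝ} (h1 : C + c = 1 + x + Y) (h2 : C * c = x - Y) :
    SS C c = Wf x Y * SS C c + Rf x Y := by
  have hR : (PowerSeries.mk fun n => if n = 0 then (0 : ℝ) else 2 * (1 + (Chebyshev.T ℝ n).eval x))
      = 2 * A1 + 2 * GT x - 4 := by
    have := SS_eq 1 x
    have hA : GT 1 = A1 := by
      ext n; simp [GT, A1]
    rw [hA] at this
    rw [← this]
    ext n
    simp [SS]
  have hunit : IsUnit ((1 - PowerSeries.X) ^ 2 * Pc x * Pc C * Pc c : ℝ⟦X⟧) := by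
    apply IsUnit.mul
    · apply IsUnit.mul
      · apply IsUnit.mul
        · exact (IsUnit.of_mul_eq_one _ A1_mul).pow 2
        · exact IsUnit.of_mul_eq_one _ (Pc_mul_GU x)
      · exact IsUnit.of_mul_eq_one _ (Pc_mul_GU C)
    · exact IsUnit.of_mul_eq_one _ (Pc_mul_GU c)
  apply hunit.mul_left_cancel
  have eC := Pc_mul_GT C
  have ec := Pc_mul_GT c
  have ex := Pc_mul_GT x
  have eU := Pc_mul_GU x
  have eA := A1_mul
  have hcC : PowerSeries.C C + PowerSeries.C c = 1 + PowerSeries.C x + (PowerSeries.C Y : ℝ⟦X⟧) := by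
    rw [← map_add, h1]; simp
  have hcc : PowerSeries.C C * PowerSeries.C c = PowerSeries.C x - (PowerSeries.C Y : ℝ⟦X⟧) := by
    rw [← map_mul, h2]; simp
  rw [SS_eq]
  unfold Rf Wf
  rw [hR]
  have h2C : (PowerSeries.C (2 : ℝ) : ℝ⟦X⟧) = 2 := map_ofNat (PowerSeries.C (R := ℝ)) 2
  have e2C : ∀ t : ℝ, (PowerSeries.C (2 * t) : ℝ⟦X⟧) = 2 * PowerSeries.C t := by
    intro t; rw [map_mul, h2C]
  unfold Pc at *
  simp only [e2C] at eC ec ex eU ⊢
  exact ring_id _ _ _ _ _ _ _ _ _ _ eC ec ex eU eA hcC hcc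

lemma abs_U_le (n : ℕ) {x : ℝ} (hx : |x| ≤ 1) : |(Chebyshev.U ℝ n).eval x| ≤ n + 1 := by
  induction n with
  | zero => simp
  | succ n ih =>
    have h := Chebyshev.U_eq_X_mul_U_add_T ℝ (n : ℤ)
    push_cast
    rw [h, eval_add, eval_mul, eval_X]
    refine (abs_add_le _ _).trans ?_
    rw [abs_mul]
    have h1 := Chebyshev.abs_eval_T_real_le_one ((n : ℤ) + 1) hx
    have h2 : |x| * |(Chebyshev.U ℝ n).eval x| ≤ 1 * (n + 1) :=
      mul_le_mul hx ih (abs_nonneg _) (by norm_num)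
    linarith

lemma dom_GU {x : ℝ} (hx : |x| ≤ 1) : Dom (GU x) (GU 1) := by
  intro n
  simp only [GU, PowerSeries.coeff_mk]
  rw [Chebyshev.U_eval_one]
  exact_mod_cast abs_U_le n hx

lemma dom_C {a : ℝ} (ha : 0 ≤ a) : Dom (PowerSeries.C a) (PowerSeries.C a) := by
  apply Dom.refl_of_nonneg
  intro n
  rw [PowerSeries.coeff_C]
  split_ifs <;> simp [ha]

lemma dom_X : Dom (PowerSeries.X) (PowerSeries.X) := by
  apply Dom.refl_of_nonneg
  intro n
  rw [PowerSeries.coeff_X]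
  split_ifs <;> simp

lemma dom_one : Dom (1 : ℝ⟦X⟧) 1 := by
  apply Dom.refl_of_nonneg
  intro n
  rw [PowerSeries.coeff_one]
  split_ifs <;> simp

lemma dom_A1 : Dom A1 A1 := by
  apply Dom.refl_of_nonneg
  intro n
  simp [A1]

lemma dom_three : Dom (3 : ℝ⟦X⟧) 3 := by
  have : (3 : ℝ⟦X⟧) = PowerSeries.C 3 := (map_ofNat (PowerSeries.C (R := ℝ)) 3).symm
  rw [this]
  exact dom_C (by norm_num)

lemma dom_Wf {x Y : ℝ} (hx : |x| ≤ 1) (hY : 0 ≤ Y) : Dom (Wf x Y) (Wf 1 Y) := by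
  unfold Wf
  rw [pow_two, pow_two]
  have h1 := dom_one.add dom_X
  exact ((((dom_C (by positivity)).mul dom_X).mul (h1.mul h1)).mul (dom_A1.mul dom_A1)).mul (dom_GU hx)

lemma dom_Rf {x Y : ℝ} (hx : |x| ≤ 1) (hY : 0 ≤ Y) : Dom (Rf x Y) (Rf 1 Y) := by
  unfold Rf
  apply Dom.add
  · intro n
    simp only [PowerSeries.coeff_mk]
    split_ifs with h
    · simp
    · have h1 := Chebyshev.abs_eval_T_real_le_one (n : ℤ) hx
      rw [Chebyshev.T_eval_one, abs_mul, abs_two]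
      have := (abs_add_le 1 (eval x (Chebyshev.T ℝ n))).trans (add_le_add (le_of_eq abs_one) h1)
      linarith
  · rw [pow_two]
    have h1 := dom_one.add dom_X
    have h3 := dom_one.add (dom_three.mul dom_X)
    exact (((((dom_C (by positivity)).mul dom_X).mul h1).mul h3).mul (dom_A1.mul dom_A1)).mul (dom_GU hx)

lemma coeff_Wf_zero (x Y : ℝ) : coeff 0 (Wf x Y) = 0 := by
  unfold Wf
  have : PowerSeries.C (2 * Y) * PowerSeries.X * (1 + PowerSeries.X) ^ 2 * A1 ^ 2 * GU x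
    = PowerSeries.X * (PowerSeries.C (2 * Y) * (1 + PowerSeries.X) ^ 2 * A1 ^ 2 * GU x) := by ring
  rw [this, PowerSeries.coeff_zero_X_mul]

lemma dom_SS {C c C' c' x Y : ℝ} (hx : |x| ≤ 1) (hY : 0 ≤ Y)
    (h1 : C + c = 1 + x + Y) (h2 : C * c = x - Y)
    (h1' : C' + c' = 1 + 1 + Y) (h2' : C' * c' = 1 - Y) : Dom (SS C c) (SS C' c') :=
  Dom.fix (dom_Wf hx hY) (dom_Rf hx hY) (coeff_Wf_zero _ _) (coeff_Wf_zero _ _)
    (SS_fix h1 h2) (SS_fix h1' h2')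

lemma cos_re_im (w : ℂ) : (Complex.cos w).re = Real.cos w.re * Real.cosh w.im ∧
    (Complex.cos w).im = - (Real.sin w.re * Real.sinh w.im) := by
  have hw : w = w.re + w.im * Complex.I := (Complex.re_add_im w).symm
  constructor
  · conv_lhs => rw [hw]
    rw [Complex.cos_add_mul_I]
    simp [← Complex.ofReal_cos, ← Complex.ofReal_cosh, ← Complex.ofReal_sin, ← Complex.ofReal_sinh]
  · conv_lhs => rw [hw]
    rw [Complex.cos_add_mul_I]
    simp [← Complex.ofReal_cos, ← Complex.ofReal_cosh, ← Complex.ofReal_sin, ← Complex.ofReal_sinh]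

lemma norm_cos_sq (w : ℂ) :
    4 * ‖Complex.cos w‖ ^ 2 = 2 * (Real.cosh (2 * w.im) + Real.cos (2 * w.re)) := by
  obtain ⟨hre, him⟩ := cos_re_im w
  rw [← Complex.normSq_eq_norm_sq, Complex.normSq_apply, hre, him, Real.cos_two_mul, Real.cosh_two_mul]
  have h1 := Real.sin_sq_add_cos_sq w.re
  have h2 := Real.cosh_sq w.im
  have h3 : Real.sin w.re ^ 2 = 1 - Real.cos w.re ^ 2 := by linarith
  have e : 4 * (Real.cos w.re * Real.cosh w.im * (Real.cos w.re * Real.cosh w.im)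
      + -(Real.sin w.re * Real.sinh w.im) * -(Real.sin w.re * Real.sinh w.im))
      = 4 * (Real.cos w.re ^ 2 * Real.cosh w.im ^ 2 + Real.sin w.re ^ 2 * Real.sinh w.im ^ 2) := by ring
  rw [e, h3, h2]
  ring

/-- the complex cosine parametrisation -/
lemma norm_T_sq (z : ℂ) : ∃ C c : ℝ,
    C + c = 1 + (2 * z.re ^ 2 - 1) + 2 * z.im ^ 2 ∧ C * c = (2 * z.re ^ 2 - 1) - 2 * z.im ^ 2 ∧
    ∀ n : ℕ, 4 * ‖(Chebyshev.T ℂ n).eval z‖ ^ 2
      = 2 * ((Chebyshev.T ℝ n).eval C + (Chebyshev.T ℝ n).eval c) := by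
  obtain ⟨θ, rfl⟩ := Complex.cos_surjective z
  obtain ⟨hre, him⟩ := cos_re_im θ
  have h2 := Real.cosh_sq θ.im
  have h1 := Real.sin_sq_add_cos_sq θ.re
  refine ⟨Real.cosh (2 * θ.im), Real.cos (2 * θ.re), ?_, ?_, ?_⟩
  · have h := norm_cos_sq θ
    rw [← Complex.normSq_eq_norm_sq, Complex.normSq_apply] at h
    nlinarith
  · rw [hre, him, Real.cosh_two_mul, Real.cos_two_mul]
    have h3 : Real.sinh θ.im ^ 2 = Real.cosh θ.im ^ 2 - 1 := by linarith
    have h4 : Real.sin θ.re ^ 2 = 1 - Real.cos θ.re ^ 2 := by linarith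
    have e : 2 * (Real.cos θ.re * Real.cosh θ.im) ^ 2 - 1 - 2 * (-(Real.sin θ.re * Real.sinh θ.im)) ^ 2
      = 2 * (Real.cos θ.re ^ 2 * Real.cosh θ.im ^ 2) - 1
        - 2 * (Real.sin θ.re ^ 2 * Real.sinh θ.im ^ 2) := by ring
    rw [e, h4, h3]
    ring
  · intro n
    have h := norm_cos_sq (n * θ)
    have e1 := Chebyshev.T_complex_cos θ n
    have e2 := Chebyshev.T_real_cos (2 * θ.re) n
    have e3 := Chebyshev.T_real_cosh (2 * θ.im) n
    rw [e1, e2, e3]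
    have hr : (n * θ : ℂ).re = n * θ.re := by simp
    have hi : (n * θ : ℂ).im = n * θ.im := by simp
    rw [hr, hi] at h
    have e4 : (((n : ℕ) : ℤ) : ℂ) = (n : ℂ) := by simp
    have e5 : (((n : ℕ) : ℤ) : ℝ) = (n : ℝ) := by simp
    rw [e4, e5, h]
    ring_nf

/-- Duffin and Schaeffer inequality for the Chebyshev polynomial. -/
theorem norm_T_le (n : ℕ) {x : ℝ} (hx : |x| ≤ 1) (y : ℝ) :
    ‖(Chebyshev.T ℂ n).eval (x + y * Complex.I)‖ ≤ ‖(Chebyshev.T ℂ n).eval (1 + y * Complex.I)‖ := by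
  rcases Nat.eq_zero_or_pos n with h0 | h0
  · subst h0; simp
  obtain ⟨C, c, h1, h2, h3⟩ := norm_T_sq (x + y * Complex.I)
  obtain ⟨C', c', h1', h2', h3'⟩ := norm_T_sq (1 + y * Complex.I)
  have hre : ((x : ℂ) + y * Complex.I).re = x := by simp
  have him : ((x : ℂ) + y * Complex.I).im = y := by simp
  have hre' : ((1 : ℂ) + y * Complex.I).re = 1 := by simp
  have him' : ((1 : ℂ) + y * Complex.I).im = y := by simp
  rw [hre, him] at h1 h2
  rw [hre', him'] at h1' h2'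
  have hx2 : |2 * x ^ 2 - 1| ≤ 1 := by
    have := abs_le.mp hx
    rw [abs_le]
    constructor <;> nlinarith
  have hd := dom_SS (C := C) (c := c) (C' := C') (c' := c') (Y := 2 * y ^ 2) hx2 (by positivity) h1 h2
    (by rw [h1']; ring) (by rw [h2']; ring)
  have hn := hd n
  have hne : n ≠ 0 := by omega
  simp only [SS, PowerSeries.coeff_mk, if_neg hne] at hn
  rw [← h3 n, ← h3' n] at hn
  have := (le_abs_self _).trans hn
  have h4 : ‖(Chebyshev.T ℂ n).eval (x + y * Complex.I)‖ ^ 2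
      ≤ ‖(Chebyshev.T ℂ n).eval (1 + y * Complex.I)‖ ^ 2 := by linarith
  exact (sq_le_sq₀ (norm_nonneg _) (norm_nonneg _)).mp h4

end

end Pool.Agent.Helper69.CB.DS
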