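import Pool.Agent.Helper69.CB.Dir
import Pool.Agent.Helper69.CB.DS

/-! If all gap maxima are equal then the polynomial is a multiple of the Chebyshev polynomial. -/

namespace Pool.Agent.Helper69.CB

open Finset Filter Topology Polynomial

noncomputable section

/-- squared modulus at `x+iy` -/
def Pz (κ m : ℕ) (w : ℕ → ℝ) (x y : ℝ) : ℝ :=
  (x ^ 2 + y ^ 2) ^ κ * ∏ i ∈ range m, E x y (w (i + 1))

/-- the complex polynomial function -/
def Qc (κ m : ℕ) (w : ℕ → ℝ) (z : ℂ) : ℂ :=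
  z ^ κ * ∏ i ∈ range m, (z ^ 2 - (w (i + 1) : ℂ))

lemma norm_Qc_sq (κ m : ℕ) (w : ℕ → ℝ) (x y : ℝ) :
    ‖Qc κ m w (x + y * Complex.I)‖ ^ 2 = Pz κ m w x y := by
  unfold Qc Pz
  rw [norm_mul, norm_pow, norm_prod, mul_pow, ← pow_mul, mul_comm κ 2, pow_mul, ← Finset.prod_pow]
  congr 1
  · congr 1
    rw [← Complex.normSq_eq_norm_sq, Complex.normSq_apply]
    simp
    ring
  · apply Finset.prod_congr rfl
    intro i _
    rw [← Complex.normSq_eq_norm_sq, Complex.normSq_apply]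
    unfold E
    have h1 : (((x : ℂ) + (y : ℂ) * Complex.I) ^ 2 - (w (i + 1) : ℂ)).re = x ^ 2 - y ^ 2 - w (i + 1) := by
      simp [pow_two]
    have h2 : (((x : ℂ) + (y : ℂ) * Complex.I) ^ 2 - (w (i + 1) : ℂ)).im = 2 * x * y := by
      simp [pow_two]; ring
    rw [h1, h2]
    ring

/-- the real polynomial -/
def Qp (κ m : ℕ) (w : ℕ → ℝ) : ℝ[X] := X ^ κ * ∏ i ∈ range m, (X ^ 2 - C (w (i + 1)))

lemma Qp_monic (κ m : ℕ) (w : ℕ → ℝ) : (Qp κ m w).Monic := by
  unfold Qp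
  apply (monic_X_pow κ).mul
  apply monic_prod_of_monic
  intro i _
  exact monic_X_pow_sub_C _ (by norm_num)

lemma Qp_natDegree (κ m : ℕ) (w : ℕ → ℝ) : (Qp κ m w).natDegree = κ + 2 * m := by
  unfold Qp
  rw [Monic.natDegree_mul (monic_X_pow κ) (monic_prod_of_monic _ _ fun i _ => monic_X_pow_sub_C _ (by norm_num)),
    natDegree_X_pow, natDegree_prod_of_monic _ _ fun i _ => monic_X_pow_sub_C _ (by norm_num)]
  simp [natDegree_X_pow_sub_C]
  ring

lemma Qp_eval_sq (κ m : ℕ) (w : ℕ → ℝ) (x : ℝ) : ((Qp κ m w).eval x) ^ 2 = G κ m w (x ^ 2) := by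
  unfold Qp G
  rw [eval_mul, eval_pow, eval_X, eval_prod, mul_pow, ← pow_mul, mul_comm κ 2, pow_mul, ← Finset.prod_pow]
  congr 1
  apply Finset.prod_congr rfl
  intro i _
  simp

lemma Qp_map_eval (κ m : ℕ) (w : ℕ → ℝ) (z : ℂ) :
    ((Qp κ m w).map (algebraMap ℝ ℂ)).eval z = Qc κ m w z := by
  unfold Qp Qc
  rw [Polynomial.map_mul, Polynomial.map_prod, eval_mul, eval_prod]
  simp

/-- every point of `[0,1]` lies in a gap -/
lemma exists_gap {m : ℕ} {w : ℕ → ℝ} (hw : Cfg m w) {s : ℝ} (h0 : 0 ≤ s) (h1 : s ≤ 1) :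
    ∃ k, k ≤ m ∧ s ∈ Set.Icc (w k) (w (k + 1)) := by
  by_contra hcon
  push Not at hcon
  have h : ∀ k, k ≤ m + 1 → w k ≤ s := by
    intro k
    induction k with
    | zero => intro _; rw [hw.zero]; exact h0
    | succ k ih =>
      intro hk
      have h2 := ih (by omega)
      by_contra h3
      push Not at h3
      exact hcon k (by omega) ⟨h2, h3.le⟩
  have h2 := h (m + 1) le_rfl
  rw [hw.one (m + 1) le_rfl] at h2
  have h3 : s = 1 := le_antisymm h1 h2
  apply hcon m le_rfl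
  rw [h3]
  exact ⟨hw.le_one m, (hw.one (m + 1) le_rfl).symm.le⟩

/-- Chebyshev polynomials in the squared variable -/
lemma exists_T_sq (κ : ℕ) (hκ : κ ≤ 1) (m : ℕ) :
    (∃ p : ℝ[X], p.natDegree ≤ m ∧ p.coeff m = 2 ^ (κ + 2 * m - 1) ∧
      ∀ x : ℝ, (Chebyshev.T ℝ ((κ + 2 * m : ℕ) : ℤ)).eval x = x ^ κ * p.eval (x ^ 2)) ∧
    (∃ p : ℝ[X], p.natDegree ≤ m + 1 ∧ p.coeff (m + 1) = 2 ^ (κ + 2 * (m + 1) - 1) ∧
      ∀ x : ℝ, (Chebyshev.T ℝ ((κ + 2 * (m + 1) : ℕ) : ℤ)).eval x = x ^ κ * p.eval (x ^ 2)) := by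
  induction m with
  | zero =>
    interval_cases κ
    · refine ⟨⟨1, by simp, by simp, ?_⟩, ⟨C 2 * X - 1, ?_, ?_, ?_⟩⟩
      · intro x; simp
      · compute_degree
      · simp [coeff_X, coeff_one]
      · intro x
        have : (((0 + 2 * (0 + 1) : ℕ)) : ℤ) = 2 := by norm_num
        rw [this, Chebyshev.T_two]
        simp
    · refine ⟨⟨1, by simp, by simp, ?_⟩, ⟨C 4 * X - C 3, ?_, ?_, ?_⟩⟩
      · intro x; simp
      · compute_degree
      · simp [coeff_X, coeff_C]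
        norm_num
      · intro x
        have : (((1 + 2 * (0 + 1) : ℕ)) : ℤ) = 1 + 2 := by norm_num
        rw [this, Chebyshev.T_add_two, show (1 + 1 : ℤ) = 2 by norm_num, Chebyshev.T_two,
          Chebyshev.T_one]
        simp
        ring
  | succ m ih =>
    obtain ⟨⟨p0, d0, c0, e0⟩, ⟨p1, d1, c1, e1⟩⟩ := ih
    refine ⟨⟨p1, d1, c1, e1⟩, ⟨C 2 * (C 2 * X - 1) * p1 - p0, ?_, ?_, ?_⟩⟩
    · refine (natDegree_sub_le _ _).trans (max_le ?_ (by omega))
      refine natDegree_mul_le.trans ?_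
      have : (C 2 * (C 2 * X - 1) : ℝ[X]).natDegree ≤ 1 := by compute_degree
      omega
    · have h1 : (C 2 * (C 2 * X - 1) * p1 - p0 : ℝ[X])
         = C 4 * (X * p1) - C 2 * p1 - p0 := by
        have : (C 4 : ℝ[X]) = C 2 * C 2 := by rw [← C_mul]; norm_num
        rw [this]; ring
      rw [h1, coeff_sub, coeff_sub, coeff_C_mul, coeff_C_mul, coeff_X_mul, c1,
        coeff_eq_zero_of_natDegree_lt (lt_of_le_of_lt d1 (by omega)),
        coeff_eq_zero_of_natDegree_lt (lt_of_le_of_lt d0 (by omega))]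
      have : κ + 2 * (m + 1 + 1) - 1 = (κ + 2 * (m + 1) - 1) + 2 := by omega
      rw [this, pow_add]
      ring
    · intro x
      have h := Chebyshev.T_mul_T ℝ ((κ + 2 * (m + 1) : ℕ) : ℤ) 2
      have ha : (((κ + 2 * (m + 1) : ℕ)) : ℤ) + 2 = ((κ + 2 * (m + 1 + 1) : ℕ) : ℤ) := by
        push_cast; ring
      have hb : (((κ + 2 * (m + 1) : ℕ)) : ℤ) - 2 = ((κ + 2 * m : ℕ) : ℤ) := by
        push_cast; ring
      rw [ha, hb] at h
      have h2 := congrArg (fun P => Polynomial.eval x P) h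
      simp only [eval_mul, eval_add, Chebyshev.T_two, eval_sub, eval_pow, eval_X, eval_one,
        eval_ofNat] at h2
      rw [e1, e0] at h2
      simp only [eval_sub, eval_mul, eval_C, eval_X, eval_one]
      linear_combination -h2

variable {κ m : ℕ} {w t : ℕ → ℝ}

lemma Data.sign_q (h : Data κ m w t) {k : ℕ} (hk : k ≤ m) :
    0 < (-1) ^ (m - k) * ∏ i ∈ range m, (t k - w (i + 1)) := by
  have hmem := (h.pos k hk).mem h.srt
  rw [← Finset.prod_range_mul_prod_Ico _ hk]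
  have h1 : 0 < ∏ i ∈ range k, (t k - w (i + 1)) := by
    apply Finset.prod_pos
    intro i hi
    have hi' := Finset.mem_range.mp hi
    have h2 := h.srt.cfg.mono (show i + 1 ≤ k by omega)
    have h3 := h.ne hk (show i < m by omega)
    have h4 : w (i + 1) ≤ t k := h2.trans hmem.1
    exact sub_pos.mpr (lt_of_le_of_ne h4 (Ne.symm h3))
  have h2 : 0 < ∏ i ∈ Ico k m, ((-1) * (t k - w (i + 1))) := by
    apply Finset.prod_pos
    intro i hi
    have hi' := Finset.mem_Ico.mp hi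
    have h2 := h.srt.cfg.mono (show k + 1 ≤ i + 1 by omega)
    have h3 := h.ne hk hi'.2
    have h4 : t k ≤ w (i + 1) := hmem.2.trans h2
    have : t k < w (i + 1) := lt_of_le_of_ne h4 h3
    linarith
  rw [Finset.prod_mul_distrib, Finset.prod_const, Nat.card_Ico] at h2
  have := mul_pos h1 h2
  calc 0 < _ := this
    _ = _ := by ring

lemma Data.sign_o (h : Data κ m w t) {k : ℕ} (hk : k ≤ m) :
    0 < (-1) ^ (m - k) * ∏ j ∈ (range (m + 1)).erase k, (t k - t j) := by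
  have h1 : 0 < ∏ i ∈ range k, (t k - t i) := by
    apply Finset.prod_pos
    intro i hi
    exact sub_pos.mpr (h.lt (Finset.mem_range.mp hi) hk)
  have h2 : 0 < ∏ i ∈ Ioc k m, ((-1) * (t k - t i)) := by
    apply Finset.prod_pos
    intro i hi
    have hi' := Finset.mem_Ioc.mp hi
    have := h.lt hi'.1 hi'.2
    linarith
  rw [Finset.prod_mul_distrib, Finset.prod_const, Nat.card_Ioc] at h2
  have union : (Finset.range (m + 1)).erase k = (Finset.range k) ∪ Finset.Ioc k m := by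
    ext i
    simp only [Finset.mem_erase, Finset.mem_range, Finset.mem_union, Finset.mem_Ioc]
    omega
  have disjoint : Disjoint (Finset.range k) (Finset.Ioc k m) := by
    rw [Finset.disjoint_left]
    intro i hi hi2
    simp only [Finset.mem_range, Finset.mem_Ioc] at hi hi2
    omega
  rw [union, Finset.prod_union disjoint]
  have := mul_pos h1 h2
  calc 0 < _ := this
    _ = _ := by ring

/-- equal gap maxima force the extremal value -/
lemma Data.mu_bound (h : Data κ m w t) (hκ : κ ≤ 1) {M : ℝ} (hM : 0 < M)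
    (heq : ∀ k, k ≤ m → Mx κ m w k = M) : √M * 2 ^ (κ + 2 * m - 1) ≤ 1 := by
  obtain ⟨⟨p, hd, hc, he⟩, -⟩ := exists_T_sq κ hκ m
  set q : ℝ[X] := ∏ i ∈ range m, (X - C (w (i + 1))) with hq
  have hqm : q.Monic := monic_prod_of_monic _ _ fun i _ => monic_X_sub_C _
  have hqd : q.natDegree = m := by
    rw [hq, natDegree_prod_of_monic _ _ fun i _ => monic_X_sub_C _]
    simp
  have hinj : Set.InjOn t (range (m + 1) : Set ℕ) := by
    intro i hi j hj hij
    have hi' : i ≤ m := Nat.lt_succ_iff.mp (Finset.mem_range.mp (Finset.mem_coe.mp hi))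
    have hj' : j ≤ m := Nat.lt_succ_iff.mp (Finset.mem_range.mp (Finset.mem_coe.mp hj))
    rcases lt_trichotomy i j with h1 | h1 | h1
    · exact absurd hij (h.lt h1 hj').ne
    · exact h1
    · exact absurd hij (h.lt h1 hi').ne'
  have hcard : #(range (m + 1)) - 1 = m := by simp
  have s1 : q.coeff m = ∑ i ∈ range (m + 1), (q.eval (t i)) / ∏ j ∈ (range (m + 1)).erase i, (t i - t j) := by
    have := Lagrange.coeff_eq_sum hinj (P := q) (by
      rw [Finset.card_range]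
      refine lt_of_le_of_lt degree_le_natDegree ?_
      rw [hqd]; exact_mod_cast Nat.lt_succ_self m)
    rwa [hcard] at this
  have s2 : p.coeff m = ∑ i ∈ range (m + 1), (p.eval (t i)) / ∏ j ∈ (range (m + 1)).erase i, (t i - t j) := by
    have := Lagrange.coeff_eq_sum hinj (P := p) (by
      rw [Finset.card_range]
      refine lt_of_le_of_lt degree_le_natDegree ?_
      exact_mod_cast Nat.lt_succ_of_le hd)
    rwa [hcard] at this
  have hqc : q.coeff m = 1 := by
    have := hqm.coeff_natDegree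
    rwa [hqd] at this
  rw [← hc, s2, ← hqc, s1, Finset.mul_sum]
  apply Finset.sum_le_sum
  intro k hk
  have hk' : k ≤ m := Nat.lt_succ_iff.mp (Finset.mem_range.mp hk)
  set O := ∏ j ∈ (range (m + 1)).erase k, (t k - t j) with hO
  have hqe : q.eval (t k) = ∏ i ∈ range m, (t k - w (i + 1)) := by
    rw [hq, eval_prod]; simp
  have hsq := h.sign_q hk'
  have hso := h.sign_o hk'
  rw [← hqe] at hsq
  rw [← hO] at hso
  have ht0 := h.nonneg hk'
  have ht1 := h.le_one hk'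
  -- |q|^2 t^κ = M
  have hG : (t k) ^ κ * (q.eval (t k)) ^ 2 = M := by
    have := h.val k hk'
    rw [heq k hk'] at this
    rw [← this, hqe, ← Finset.prod_pow]
    rfl
  have hT : ((√(t k)) ^ κ * p.eval (t k)) ^ 2 ≤ 1 := by
    have h1 := he (√(t k))
    rw [Real.sq_sqrt ht0] at h1
    rw [← h1]
    have h2 : |(√(t k))| ≤ 1 := by
      rw [abs_of_nonneg (Real.sqrt_nonneg _)]
      exact Real.sqrt_le_one.mpr ht1
    have h3 := Chebyshev.abs_eval_T_real_le_one ((κ + 2 * m : ℕ) : ℤ) h2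
    rw [← sq_abs]
    exact pow_le_one₀ (abs_nonneg _) h3
  have habs : √M * |p.eval (t k)| ≤ |q.eval (t k)| := by
    apply abs_le_of_sq_le_sq' _ (abs_nonneg _) |>.2
    rw [mul_pow, Real.sq_sqrt hM.le, sq_abs, sq_abs, ← hG]
    have h4 : ((√(t k)) ^ κ * p.eval (t k)) ^ 2 = (t k) ^ κ * (p.eval (t k)) ^ 2 := by
      rw [mul_pow, ← pow_mul, mul_comm κ 2, pow_mul, Real.sq_sqrt ht0]
    rw [h4] at hT
    have := mul_le_mul_of_nonneg_left hT (sq_nonneg (q.eval (t k)))
    linarith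
  have hOne : O ≠ 0 := by
    intro h0; rw [h0, mul_zero] at hso; exact lt_irrefl _ hso
  have hsign : q.eval (t k) / O = |q.eval (t k)| / |O| := by
    rw [← abs_div]
    symm
    apply abs_of_nonneg
    have e : q.eval (t k) / O = ((-1) ^ (m - k) * q.eval (t k)) / ((-1) ^ (m - k) * O) := by
      rw [mul_div_mul_left _ _ (by positivity)]
    rw [e]
    exact div_nonneg hsq.le hso.le
  rw [hsign, ← mul_div_assoc]
  calc √M * eval (t k) p / O ≤ |√M * eval (t k) p / O| := le_abs_self _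
    _ = √M * |eval (t k) p| / |O| := by
      rw [abs_div, abs_mul, abs_of_nonneg (Real.sqrt_nonneg M)]
    _ ≤ |q.eval (t k)| / |O| := by
      apply div_le_div_of_nonneg_right habs (abs_nonneg _)

/-- the conclusion in the case of equal maxima -/
lemma Data.equal_case (h : Data κ m w t) (hκ : κ ≤ 1) {M : ℝ} (hM : 0 < M)
    (heq : ∀ k, k ≤ m → Mx κ m w k = M) {x y : ℝ} (hx : |x| ≤ 1) :
    Pz κ m w x y ≤ Pz κ m w 1 y := by
  have hμ : 0 < √M := Real.sqrt_pos.mpr hM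
  have hb := h.mu_bound hκ hM heq
  set P : ℝ[X] := C (√M)⁻¹ * Qp κ m w with hP
  have hPdeg : P.degree ≤ ((κ + 2 * m : ℕ) : WithBot ℕ) := by
    rw [hP]
    have h1 : (C (√M)⁻¹ * Qp κ m w).natDegree ≤ κ + 2 * m := by
      refine (natDegree_C_mul_le _ _).trans ?_
      rw [Qp_natDegree]
    exact degree_le_natDegree.trans (by exact_mod_cast h1)
  have hbnd : ∀ x ∈ Set.Icc (-1 : ℝ) 1, |P.eval x| ≤ 1 := by
    intro x hx
    have hx2 : x ^ 2 ≤ 1 := by nlinarith [hx.1, hx.2]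
    obtain ⟨k, hk, hmem⟩ := exists_gap h.srt.cfg (sq_nonneg x) hx2
    obtain ⟨s', hs', he', hmax⟩ := Mx_attained κ m h.srt.cfg k
    have h1 := hmax _ hmem
    rw [heq k hk, ← Qp_eval_sq] at h1
    rw [hP, eval_mul, eval_C, abs_mul, abs_of_pos (inv_pos.mpr hμ), inv_mul_le_iff₀ hμ, mul_one]
    exact Real.abs_le_sqrt h1
  have hcoeff : P.coeff (κ + 2 * m) = (√M)⁻¹ := by
    rw [hP, coeff_C_mul]
    have := (Qp_monic κ m w).coeff_natDegree
    rw [Qp_natDegree] at this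
    rw [this, mul_one]
  have hle := Chebyshev.coeff_le_of_forall_abs_le_one hPdeg hbnd
  have hge : 2 ^ (κ + 2 * m - 1) ≤ (√M)⁻¹ := by
    rw [← one_div, le_div_iff₀ hμ, mul_comm]
    exact hb
  have hPT : P = Chebyshev.T ℝ ((κ + 2 * m : ℕ) : ℤ) := by
    apply (Chebyshev.coeff_eq_iff_of_forall_abs_le_one hPdeg hbnd).mp
    rw [hcoeff] at hle ⊢
    exact le_antisymm hle hge
  have hnorm : ∀ z : ℂ, ‖Qc κ m w z‖ = √M * ‖(Chebyshev.T ℂ ((κ + 2 * m : ℕ) : ℤ)).eval z‖ := by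
    intro z
    have h1 : Qp κ m w = C (√M) * Chebyshev.T ℝ ((κ + 2 * m : ℕ) : ℤ) := by
      rw [← hPT, hP, ← mul_assoc, ← C_mul, mul_inv_cancel₀ hμ.ne', C_1, one_mul]
    rw [← Qp_map_eval, h1, Polynomial.map_mul, map_C, Chebyshev.map_T, eval_mul, eval_C, norm_mul]
    congr 1
    simp
  have hDS := DS.norm_T_le (κ + 2 * m) hx y
  rw [← norm_Qc_sq, ← norm_Qc_sq]
  apply pow_le_pow_left₀ (norm_nonneg _)
  have e1 : ((1 : ℝ) : ℂ) = 1 := by simp
  rw [hnorm, hnorm, e1]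
  exact mul_le_mul_of_nonneg_left hDS hμ.le

end

end Pool.Agent.Helper69.CB
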