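import Mathlib

/-! Configurations of squared zeros, gap maxima and their perturbation. -/

namespace Pool.Agent.Helper69.CB

open Finset Filter Topology

noncomputable section

/-- the square of the polynomial as a function of `s = x^2` -/
def G (κ m : ℕ) (w : ℕ → ℝ) (s : ℝ) : ℝ := s ^ κ * ∏ i ∈ range m, (s - w (i + 1)) ^ 2

/-- logarithm of `G` -/
def LG (κ m : ℕ) (w : ℕ → ℝ) (s : ℝ) : ℝ :=
  κ * Real.log s + ∑ i ∈ range m, 2 * Real.log (s - w (i + 1))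

/-- logarithmic derivative of `G` -/
def Lp (κ m : ℕ) (w : ℕ → ℝ) (s : ℝ) : ℝ :=
  κ * (1 / s) + ∑ i ∈ range m, 2 * (1 / (s - w (i + 1)))

/-- maximum of `G` over the `k`th gap -/
def Mx (κ m : ℕ) (w : ℕ → ℝ) (k : ℕ) : ℝ :=
  sSup ((fun u => G κ m w (w k + u * (w (k + 1) - w k))) '' Set.Icc (0 : ℝ) 1)

/-- strictly sorted configuration -/
structure Srt (m : ℕ) (w : ℕ → ℝ) : Prop where
  zero : w 0 = 0
  one : ∀ i, m + 1 ≤ i → w i = 1
  lt : ∀ i, i ≤ m → w i < w (i + 1)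

/-- weakly sorted configuration -/
structure Cfg (m : ℕ) (w : ℕ → ℝ) : Prop where
  zero : w 0 = 0
  one : ∀ i, m + 1 ≤ i → w i = 1
  le : ∀ i, w i ≤ w (i + 1)

lemma Srt.cfg {m : ℕ} {w : ℕ → ℝ} (h : Srt m w) : Cfg m w where
  zero := h.zero
  one := h.one
  le i := by
    rcases le_or_gt i m with hi | hi
    · exact (h.lt i hi).le
    · rw [h.one i hi, h.one (i + 1) (by omega)]

lemma Cfg.mono {m : ℕ} {w : ℕ → ℝ} (h : Cfg m w) : Monotone w := monotone_nat_of_le_succ h.le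

lemma Cfg.nonneg {m : ℕ} {w : ℕ → ℝ} (h : Cfg m w) (i : ℕ) : 0 ≤ w i := by
  rw [← h.zero]; exact h.mono (Nat.zero_le i)

lemma Cfg.le_one {m : ℕ} {w : ℕ → ℝ} (h : Cfg m w) (i : ℕ) : w i ≤ 1 := by
  have h1 := h.one (max i (m + 1)) (le_max_right _ _)
  rw [← h1]; exact h.mono (le_max_left _ _)

lemma Srt.strict {m : ℕ} {w : ℕ → ℝ} (h : Srt m w) {i j : ℕ} (hij : i < j) (hi : i ≤ m) :
    w i < w j := lt_of_lt_of_le (h.lt i hi) (h.cfg.mono hij)

lemma G_nonneg {κ m : ℕ} {w : ℕ → ℝ} {s : ℝ} (hs : 0 ≤ s) : 0 ≤ G κ m w s := by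
  unfold G
  exact mul_nonneg (pow_nonneg hs _) (Finset.prod_nonneg fun i _ => sq_nonneg _)

lemma G_cont (κ m : ℕ) : Continuous (fun p : (ℕ → ℝ) × ℝ => G κ m p.1 p.2) := by
  unfold G
  fun_prop

lemma G_pos {κ m : ℕ} {w : ℕ → ℝ} {s : ℝ} (hs : 0 ≤ s) (hs0 : s = 0 → κ = 0)
    (hne : ∀ i < m, s ≠ w (i + 1)) : 0 < G κ m w s := by
  unfold G
  apply mul_pos
  · rcases eq_or_lt_of_le hs with h | h
    · rw [hs0 h.symm]; simp
    · positivity
  · apply Finset.prod_pos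
    intro i hi
    have : s - w (i + 1) ≠ 0 := sub_ne_zero.mpr (hne i (Finset.mem_range.mp hi))
    positivity

lemma LG_eq {κ m : ℕ} {w : ℕ → ℝ} {s : ℝ} (hs0 : s = 0 → κ = 0)
    (hne : ∀ i < m, s ≠ w (i + 1)) : LG κ m w s = Real.log (G κ m w s) := by
  unfold LG G
  have h1 : s ^ κ ≠ 0 := by
    rcases eq_or_ne s 0 with h | h
    · rw [hs0 h]; simp
    · positivity
  have h2 : ∀ i ∈ range m, (s - w (i + 1)) ^ 2 ≠ 0 := by
    intro i hi
    have : s - w (i + 1) ≠ 0 := sub_ne_zero.mpr (hne i (Finset.mem_range.mp hi))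
    positivity
  rw [Real.log_mul h1 (Finset.prod_ne_zero_iff.mpr h2), Real.log_pow, Real.log_prod h2]
  congr 1
  apply Finset.sum_congr rfl
  intro i _
  rw [Real.log_pow]
  norm_num

/-- gap maxima are attained -/
lemma Mx_attained (κ m : ℕ) {w : ℕ → ℝ} (hw : Cfg m w) (k : ℕ) :
    ∃ s ∈ Set.Icc (w k) (w (k + 1)), G κ m w s = Mx κ m w k ∧
      ∀ t ∈ Set.Icc (w k) (w (k + 1)), G κ m w t ≤ Mx κ m w k := by
  have hcont : Continuous (fun u : ℝ => G κ m w (w k + u * (w (k + 1) - w k))) := by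
    have := (G_cont κ m).comp (Continuous.prodMk (continuous_const (y := w))
      (f := fun _ : ℝ => w) (g := fun u : ℝ => w k + u * (w (k + 1) - w k)) (by fun_prop))
    exact this
  have hcomp : IsCompact ((fun u : ℝ => G κ m w (w k + u * (w (k + 1) - w k))) '' Set.Icc (0 : ℝ) 1) :=
    isCompact_Icc.image hcont
  have hne : ((fun u : ℝ => G κ m w (w k + u * (w (k + 1) - w k))) '' Set.Icc (0 : ℝ) 1).Nonempty :=
    ⟨_, 0, ⟨le_rfl, zero_le_one⟩, rfl⟩
  have hle := hw.le k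
  obtain ⟨u, hu, hue⟩ := hcomp.sSup_mem hne
  refine ⟨w k + u * (w (k + 1) - w k), ⟨?_, ?_⟩, hue, ?_⟩
  · have := mul_nonneg hu.1 (sub_nonneg.mpr hle); linarith
  · have := mul_le_mul_of_nonneg_right hu.2 (sub_nonneg.mpr hle); linarith
  · intro t ht
    rcases eq_or_lt_of_le hle with h | h
    · have : t = w k := le_antisymm (by rw [h]; exact ht.2) ht.1
      subst this
      apply le_csSup hcomp.bddAbove
      exact ⟨0, ⟨le_rfl, zero_le_one⟩, by simp⟩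
    · apply le_csSup hcomp.bddAbove
      refine ⟨(t - w k) / (w (k + 1) - w k), ⟨?_, ?_⟩, ?_⟩
      · exact div_nonneg (sub_nonneg.mpr ht.1) (sub_nonneg.mpr hle)
      · rw [div_le_one (sub_pos.mpr h)]; linarith [ht.2]
      · have : w (k + 1) - w k ≠ 0 := (sub_pos.mpr h).ne'
        simp only
        congr 1
        field_simp
        ring

lemma Mx_nonneg (κ m : ℕ) {w : ℕ → ℝ} (hw : Cfg m w) (k : ℕ) : 0 ≤ Mx κ m w k := by
  obtain ⟨s, hs, h1, h2⟩ := Mx_attained κ m hw k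
  rw [← h1]
  exact G_nonneg ((hw.nonneg k).trans hs.1)

lemma Mx_cont (κ m k : ℕ) : Continuous (fun w : ℕ → ℝ => Mx κ m w k) := by
  unfold Mx
  refine IsCompact.continuous_sSup (f := fun (w : ℕ → ℝ) (u : ℝ) => G κ m w (w k + u * (w (k + 1) - w k)))
    isCompact_Icc ?_
  have : Continuous (fun p : (ℕ → ℝ) × ℝ => (p.1, p.1 k + p.2 * (p.1 (k + 1) - p.1 k))) := by
    fun_prop
  exact (G_cont κ m).comp this

/-- last gap: the maximum is at `1` -/
lemma G_le_one {κ m : ℕ} {w : ℕ → ℝ} (hw : Cfg m w) {s : ℝ} (hs : w m ≤ s) (hs1 : s ≤ 1) :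
    G κ m w s ≤ G κ m w 1 := by
  unfold G
  have hs0 : 0 ≤ s := (hw.nonneg m).trans hs
  apply mul_le_mul
  · exact pow_le_pow_left₀ hs0 hs1 κ
  · apply Finset.prod_le_prod
    · intro i _; exact sq_nonneg _
    · intro i hi
      have hi' : i + 1 ≤ m := Finset.mem_range.mp hi
      have h1 : w (i + 1) ≤ s := (hw.mono hi').trans hs
      apply pow_le_pow_left₀ (by linarith)
      linarith
  · exact Finset.prod_nonneg fun i _ => sq_nonneg _
  · positivity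

/-- first gap, even case: the maximum is at `0` -/
lemma G_le_zero {m : ℕ} {w : ℕ → ℝ} (hw : Cfg m w) {s : ℝ} (hs : 0 ≤ s) (hs1 : s ≤ w 1) :
    G 0 m w s ≤ G 0 m w 0 := by
  unfold G
  simp only [pow_zero, one_mul]
  apply Finset.prod_le_prod
  · intro i _; exact sq_nonneg _
  · intro i hi
    have h1 : w 1 ≤ w (i + 1) := hw.mono (by omega)
    nlinarith

lemma Mx_last {κ m : ℕ} {w : ℕ → ℝ} (hw : Cfg m w) : Mx κ m w m = G κ m w 1 := by
  obtain ⟨s, hs, h1, h2⟩ := Mx_attained κ m hw m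
  have h3 : w (m + 1) = 1 := hw.one _ le_rfl
  apply le_antisymm
  · rw [← h1]; exact G_le_one hw hs.1 (by rw [← h3]; exact hs.2)
  · exact h2 1 ⟨hw.le_one m, h3.symm.le⟩

lemma Mx_first {m : ℕ} {w : ℕ → ℝ} (hw : Cfg m w) : Mx 0 m w 0 = G 0 m w 0 := by
  obtain ⟨s, hs, h1, h2⟩ := Mx_attained 0 m hw 0
  apply le_antisymm
  · rw [← h1]; exact G_le_zero hw (by rw [← hw.zero]; exact hs.1) hs.2
  · exact h2 0 ⟨hw.zero.le, hw.nonneg 1⟩

/-- tangent inequality for logarithms -/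
lemma log_tangent {s t b : ℝ} (h : 0 < (s - b) * (t - b)) :
    Real.log (s - b) - Real.log (t - b) ≤ (s - t) * (1 / (t - b)) := by
  have ht : t - b ≠ 0 := by
    rintro h0; rw [h0, mul_zero] at h; exact lt_irrefl _ h
  have hs : s - b ≠ 0 := by
    rintro h0; rw [h0, zero_mul] at h; exact lt_irrefl _ h
  have hpos : 0 < (s - b) / (t - b) := by
    have : (s - b) / (t - b) = (s - b) * (t - b) / (t - b) ^ 2 := by field_simp
    rw [this]; positivity
  rw [← Real.log_div hs ht]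
  refine (Real.log_le_sub_one_of_pos hpos).trans (le_of_eq ?_)
  field_simp
  ring

/-- in a common gap -/
lemma LG_tangent {κ m : ℕ} {w : ℕ → ℝ} {s t : ℝ} (hs : 0 < s) (ht : 0 < t)
    (hg : ∀ i < m, 0 < (s - w (i + 1)) * (t - w (i + 1))) :
    LG κ m w s - LG κ m w t ≤ (s - t) * Lp κ m w t := by
  unfold LG Lp
  have h0 : (κ : ℝ) * Real.log s - κ * Real.log t ≤ (s - t) * (κ * (1 / t)) := by
    have := log_tangent (s := s) (t := t) (b := 0) (by simpa using mul_pos hs ht)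
    simp only [sub_zero] at this
    have h2 := mul_le_mul_of_nonneg_left this (Nat.cast_nonneg (α := ℝ) κ)
    linarith
  have h1 : ∑ i ∈ range m, 2 * Real.log (s - w (i + 1)) - ∑ i ∈ range m, 2 * Real.log (t - w (i + 1))
      ≤ (s - t) * ∑ i ∈ range m, 2 * (1 / (t - w (i + 1))) := by
    rw [← Finset.sum_sub_distrib, Finset.mul_sum]
    apply Finset.sum_le_sum
    intro i hi
    have := log_tangent (hg i (Finset.mem_range.mp hi))
    linarith
  linarith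

/-- strong monotonicity of the logarithmic derivative -/
lemma Lp_mono {κ m : ℕ} {w : ℕ → ℝ} {s t : ℝ} (hm : 0 < m) (hs : 0 < s) (ht : 0 < t)
    (hs1 : s ≤ 1) (ht1 : t ≤ 1) (hw0 : ∀ i, 0 ≤ w i) (hw1 : ∀ i, w i ≤ 1)
    (hg : ∀ i < m, 0 < (s - w (i + 1)) * (t - w (i + 1))) (hst : s ≤ t) :
    2 * (t - s) ≤ Lp κ m w s - Lp κ m w t := by
  unfold Lp
  have h0 : 0 ≤ (κ : ℝ) * (1 / s) - κ * (1 / t) := by
    have : 1 / t ≤ 1 / s := one_div_le_one_div_of_le hs hst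
    have := mul_le_mul_of_nonneg_left this (Nat.cast_nonneg (α := ℝ) κ)
    linarith
  have h1 : ∑ i ∈ range m, 2 * (t - s)
      ≤ ∑ i ∈ range m, 2 * (1 / (s - w (i + 1))) - ∑ i ∈ range m, 2 * (1 / (t - w (i + 1))) := by
    rw [← Finset.sum_sub_distrib]
    apply Finset.sum_le_sum
    intro i hi
    have hp := hg i (Finset.mem_range.mp hi)
    have ht0 : t - w (i + 1) ≠ 0 := by
      rintro h0; rw [h0, mul_zero] at hp; exact lt_irrefl _ hp
    have hs0 : s - w (i + 1) ≠ 0 := by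
      rintro h0; rw [h0, zero_mul] at hp; exact lt_irrefl _ hp
    have e : 2 * (1 / (s - w (i + 1))) - 2 * (1 / (t - w (i + 1)))
      = 2 * (t - s) / ((s - w (i + 1)) * (t - w (i + 1))) := by
      field_simp
      ring
    rw [e, le_div_iff₀ hp]
    have hb0 := hw0 (i + 1)
    have hb1 := hw1 (i + 1)
    have hle : (s - w (i + 1)) * (t - w (i + 1)) ≤ 1 := by nlinarith
    have : 0 ≤ 2 * (t - s) := by linarith
    nlinarith
  have h2 : 2 * (t - s) ≤ ∑ i ∈ range m, 2 * (t - s) := by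
    rw [Finset.sum_const, Finset.card_range, nsmul_eq_mul]
    have : (1 : ℝ) ≤ m := by exact_mod_cast hm
    nlinarith
  linarith

/-- second order upper bound -/
lemma LG_upper {κ m : ℕ} {w : ℕ → ℝ} {s t : ℝ} (hm : 0 < m) (hs : 0 < s) (ht : 0 < t)
    (hs1 : s ≤ 1) (ht1 : t ≤ 1) (hw0 : ∀ i, 0 ≤ w i) (hw1 : ∀ i, w i ≤ 1)
    (hg : ∀ i < m, 0 < (s - w (i + 1)) * (t - w (i + 1))) (hcr : Lp κ m w s = 0) :
    LG κ m w s ≤ LG κ m w t + (Lp κ m w t) ^ 2 := by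
  have h1 := LG_tangent (κ := κ) hs ht hg
  have hg' : ∀ i < m, 0 < (t - w (i + 1)) * (s - w (i + 1)) := fun i hi => by
    rw [mul_comm]; exact hg i hi
  have h2 : |s - t| ≤ |Lp κ m w t| := by
    rcases le_total s t with h | h
    · have := Lp_mono (κ := κ) hm hs ht hs1 ht1 hw0 hw1 hg h
      rw [hcr] at this
      have h3 : Lp κ m w t ≤ 0 := by linarith
      rw [abs_of_nonpos (by linarith), abs_of_nonpos h3]
      linarith
    · have := Lp_mono (κ := κ) hm ht hs ht1 hs1 hw0 hw1 hg' h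
      rw [hcr] at this
      have h3 : 0 ≤ Lp κ m w t := by linarith
      rw [abs_of_nonneg (by linarith), abs_of_nonneg h3]
      linarith
  have h4 : (s - t) * Lp κ m w t ≤ (Lp κ m w t) ^ 2 := by
    refine (le_abs_self _).trans ?_
    rw [abs_mul, ← sq_abs, pow_two]
    exact mul_le_mul_of_nonneg_right h2 (abs_nonneg _)
  linarith

lemma LG_hasDerivAt {κ m : ℕ} {w : ℕ → ℝ} {s : ℝ} (hs : s ≠ 0) (hne : ∀ i < m, s ≠ w (i + 1)) :
    HasDerivAt (fun s => LG κ m w s) (Lp κ m w s) s := by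
  unfold LG Lp
  apply HasDerivAt.add
  · have := (Real.hasDerivAt_log hs).const_mul (κ : ℝ)
    rw [one_div]
    exact this
  · apply HasDerivAt.fun_sum
    intro i hi
    have h1 : s - w (i + 1) ≠ 0 := sub_ne_zero.mpr (hne i (Finset.mem_range.mp hi))
    have h2 := ((hasDerivAt_id s).sub_const (w (i + 1))).log h1
    exact h2.const_mul 2

/-- position of test points in gaps -/
def Pos (κ m : ℕ) (w : ℕ → ℝ) (k : ℕ) (t : ℝ) : Prop :=
  (k = m ∧ t = 1) ∨ (k ≠ m ∧ k = 0 ∧ κ = 0 ∧ t = 0) ∨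
    (k ≠ m ∧ ¬ (k = 0 ∧ κ = 0) ∧ w k < t ∧ t < w (k + 1))

/-- error term -/
def lam (κ m : ℕ) (w : ℕ → ℝ) (k : ℕ) (t : ℝ) : ℝ :=
  if k = m ∨ (k = 0 ∧ κ = 0) then 0 else Lp κ m w t

lemma Pos.mem {κ m : ℕ} {w : ℕ → ℝ} {k : ℕ} {t : ℝ} (hw : Srt m w) (h : Pos κ m w k t) :
    t ∈ Set.Icc (w k) (w (k + 1)) := by
  rcases h with ⟨h1, h2⟩ | ⟨h1, h2, h3, h4⟩ | ⟨h1, h2, h3, h4⟩
  · subst h1 h2
    exact ⟨hw.cfg.le_one _, (hw.one _ le_rfl).symm.le⟩
  · subst h2 h4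
    exact ⟨hw.zero.le, hw.cfg.nonneg 1⟩
  · exact ⟨h3.le, h4.le⟩

lemma Pos.zero {κ m : ℕ} {w : ℕ → ℝ} {k : ℕ} {t : ℝ} (hw : Srt m w) (h : Pos κ m w k t) :
    t = 0 → κ = 0 := by
  intro ht
  rcases h with ⟨h1, h2⟩ | ⟨h1, h2, h3, h4⟩ | ⟨h1, h2, h3, h4⟩
  · rw [ht] at h2; norm_num at h2
  · exact h3
  · have := hw.cfg.nonneg k
    linarith

lemma Pos.ne {κ m : ℕ} {w : ℕ → ℝ} {k : ℕ} {t : ℝ} (hw : Srt m w) (_hk : k ≤ m) (h : Pos κ m w k t) :
    ∀ i < m, t ≠ w (i + 1) := by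
  intro i hi
  rcases h with ⟨h1, h2⟩ | ⟨h1, h2, h3, h4⟩ | ⟨h1, h2, h3, h4⟩
  · have := hw.strict (i := i + 1) (j := m + 1) (by omega) (by omega)
    rw [hw.one (m + 1) le_rfl] at this
    rw [h2]; exact this.ne'
  · have := hw.strict (i := 0) (j := i + 1) (by omega) (by omega)
    rw [hw.zero] at this
    rw [h4]; exact this.ne
  · rcases le_or_gt (i + 1) k with h5 | h5
    · have := hw.cfg.mono h5
      linarith
    · have := hw.cfg.mono (show k + 1 ≤ i + 1 by omega)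
      linarith

lemma Pos.G_pos {κ m : ℕ} {w : ℕ → ℝ} {k : ℕ} {t : ℝ} (hw : Srt m w) (hk : k ≤ m)
    (h : Pos κ m w k t) : 0 < G κ m w t :=
  CB.G_pos ((hw.cfg.nonneg k).trans (h.mem hw).1) (h.zero hw) (h.ne hw hk)

/-- interior critical points in gaps -/
lemma exists_crit {κ m : ℕ} {w : ℕ → ℝ} (hw : Srt m w) {k : ℕ} (hk : k ≤ m) :
    ∃ s, Pos κ m w k s ∧ G κ m w s = Mx κ m w k ∧ 0 < Mx κ m w k ∧ lam κ m w k s = 0 := by
  by_cases h1 : k = m
  · refine ⟨1, Or.inl ⟨h1, rfl⟩, ?_, ?_, ?_⟩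
    · rw [h1, Mx_last hw.cfg]
    · rw [h1, Mx_last hw.cfg]
      exact Pos.G_pos hw hk (k := k) (Or.inl ⟨h1, rfl⟩)
    · simp [lam, h1]
  by_cases h2 : k = 0 ∧ κ = 0
  · obtain ⟨h3, h4⟩ := h2
    subst h3 h4
    have hp : Pos 0 m w 0 0 := Or.inr (Or.inl ⟨h1, rfl, rfl, rfl⟩)
    refine ⟨0, hp, ?_, ?_, ?_⟩
    · rw [Mx_first hw.cfg]
    · rw [Mx_first hw.cfg]
      exact hp.G_pos hw hk
    · simp [lam]
  -- interior
  obtain ⟨s, hs, he, hmax⟩ := Mx_attained κ m hw.cfg k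
  have hlt := hw.lt k hk
  have hkm : k < m := lt_of_le_of_ne hk h1
  -- the maximum is positive
  have hmid : 0 < Mx κ m w k := by
    have hp : Pos κ m w k ((w k + w (k + 1)) / 2) :=
      Or.inr (Or.inr ⟨h1, h2, by linarith, by linarith⟩)
    exact lt_of_lt_of_le (hp.G_pos hw hk) (hmax _ (hp.mem hw))
  have hright : G κ m w (w (k + 1)) = 0 := by
    unfold G
    rw [Finset.prod_eq_zero (Finset.mem_range.mpr hkm) (by simp), mul_zero]
  have hleft : G κ m w (w k) = 0 := by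
    rcases Nat.eq_zero_or_pos k with h0 | h0
    · have hκ : κ ≠ 0 := fun hκ => h2 ⟨h0, hκ⟩
      unfold G
      rw [h0, hw.zero, zero_pow hκ, zero_mul]
    · unfold G
      rw [Finset.prod_eq_zero (i := k - 1) (Finset.mem_range.mpr (by omega)), mul_zero]
      rw [Nat.sub_add_cancel h0]; simp
  have hs1 : w k < s := by
    rcases eq_or_lt_of_le hs.1 with h | h
    · rw [← h, hleft] at he; linarith
    · exact h
  have hs2 : s < w (k + 1) := by
    rcases eq_or_lt_of_le hs.2 with h | h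
    · rw [h, hright] at he; linarith
    · exact h
  have hp : Pos κ m w k s := Or.inr (Or.inr ⟨h1, h2, hs1, hs2⟩)
  refine ⟨s, hp, he, hmid, ?_⟩
  have hs0 : 0 < s := lt_of_le_of_lt (hw.cfg.nonneg k) hs1
  unfold lam
  rw [if_neg (by tauto)]
  have hd := LG_hasDerivAt (κ := κ) hs0.ne' (hp.ne hw hk)
  have hloc : IsLocalMax (fun s => LG κ m w s) s := by
    have hnhds : Set.Ioo (w k) (w (k + 1)) ∈ 𝓝 s := Ioo_mem_nhds hs1 hs2
    filter_upwards [hnhds] with u hu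
    have hpu : Pos κ m w k u := Or.inr (Or.inr ⟨h1, h2, hu.1, hu.2⟩)
    rw [LG_eq (hpu.zero hw) (hpu.ne hw hk), LG_eq (hp.zero hw) (hp.ne hw hk)]
    apply Real.log_le_log (hpu.G_pos hw hk)
    rw [he]
    exact hmax u ⟨hu.1.le, hu.2.le⟩
  exact hloc.hasDerivAt_eq_zero hd

/-- two-sided bound for the gap maximum through a test point -/
lemma bracket {κ m : ℕ} {w : ℕ → ℝ} (hw : Srt m w) (hm : 0 < m) {k : ℕ} (hk : k ≤ m) {t : ℝ}
    (ht : Pos κ m w k t) :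
    LG κ m w t ≤ Real.log (Mx κ m w k) ∧
      Real.log (Mx κ m w k) ≤ LG κ m w t + (lam κ m w k t) ^ 2 := by
  obtain ⟨s, hs, he, hpos, hl⟩ := exists_crit (κ := κ) hw hk
  obtain ⟨s', hs', he', hmax⟩ := Mx_attained κ m hw.cfg k
  constructor
  · rw [LG_eq (ht.zero hw) (ht.ne hw hk)]
    exact Real.log_le_log (ht.G_pos hw hk) (hmax t (ht.mem hw))
  · rw [← he, ← LG_eq (hs.zero hw) (hs.ne hw hk)]
    rcases hs with ⟨h1, h2⟩ | ⟨h1, h2, h3, h4⟩ | ⟨h1, h2, h3, h4⟩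
    · rcases ht with ⟨g1, g2⟩ | ⟨g1, g2, g3, g4⟩ | ⟨g1, g2, g3, g4⟩
      · rw [h2, g2]; nlinarith [sq_nonneg (lam κ m w k 1)]
      · exact absurd h1 g1
      · exact absurd h1 g1
    · rcases ht with ⟨g1, g2⟩ | ⟨g1, g2, g3, g4⟩ | ⟨g1, g2, g3, g4⟩
      · exact absurd g1 h1
      · rw [h4, g4]; nlinarith [sq_nonneg (lam κ m w k 0)]
      · exact absurd ⟨h2, h3⟩ g2
    · rcases ht with ⟨g1, g2⟩ | ⟨g1, g2, g3, g4⟩ | ⟨g1, g2, g3, g4⟩
      · exact absurd g1 h1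
      · exact absurd ⟨g2, g3⟩ h2
      · have hlt : lam κ m w k t = Lp κ m w t := by
          unfold lam; rw [if_neg (by tauto)]
        have hls : Lp κ m w s = 0 := by
          unfold lam at hl; rwa [if_neg (by tauto)] at hl
        rw [hlt]
        have hs0 : 0 < s := lt_of_le_of_lt (hw.cfg.nonneg k) h3
        have ht0 : 0 < t := lt_of_le_of_lt (hw.cfg.nonneg k) g3
        have hs1 : s ≤ 1 := h4.le.trans (hw.cfg.le_one _)
        have ht1 : t ≤ 1 := g4.le.trans (hw.cfg.le_one _)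
        apply LG_upper hm hs0 ht0 hs1 ht1 hw.cfg.nonneg hw.cfg.le_one _ hls
        intro i hi
        rcases le_or_gt (i + 1) k with h5 | h5
        · have := hw.cfg.mono h5
          apply mul_pos <;> linarith
        · have := hw.cfg.mono (show k + 1 ≤ i + 1 by omega)
          apply mul_pos_of_neg_of_neg <;> linarith

end

end Pool.Agent.Helper69.CB
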