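import Pool.Agent.Helper69.CB.Pert

/-! Directions of perturbation. -/

namespace Pool.Agent.Helper69.CB

open Finset Filter Topology

noncomputable section

lemma crit_of_pos {κ m : ℕ} {w : ℕ → ℝ} {k : ℕ} {t : ℝ} (hw : Srt m w) (h : Pos κ m w k t)
    (hl : lam κ m w k t = 0) : Crit κ m (fun i => w (i + 1)) t := by
  unfold Crit
  rcases h with ⟨h1, h2⟩ | ⟨h1, h2, h3, h4⟩ | ⟨h1, h2, h3, h4⟩
  · rw [h2]; simp
  · rw [h4, h3]; simp
  · have ht0 : 0 < t := lt_of_le_of_lt (hw.cfg.nonneg k) h3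
    have h5 : Lp κ m w t = 0 := by
      unfold lam at hl; rwa [if_neg (by tauto)] at hl
    have h6 : (κ : ℝ) + ∑ i ∈ range m, 2 * (t / (t - w (i + 1))) = t * Lp κ m w t := by
      unfold Lp
      rw [mul_add, Finset.mul_sum]
      congr 1
      · field_simp
      · apply Finset.sum_congr rfl
        intro i _
        ring
    rw [h6, h5, mul_zero, mul_zero]

/-- off-diagonal identity -/
lemma off_diag {κ m : ℕ} {a : ℕ → ℝ} {s T : ℝ} (hsT : s ≠ T) (hs : ∀ i < m, s ≠ a i)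
    (hT : ∀ i < m, T ≠ a i) (cs : Crit κ m a s) (cT : Crit κ m a T) :
    (κ + 2 * m : ℝ) + ∑ i ∈ range m, 2 * (a i * (1 - a i) / ((a i - T) * (a i - s))) = 0 := by
  have hd : s - T ≠ 0 := sub_ne_zero.mpr hsT
  have h1 : ∑ i ∈ range m, 2 * (a i * (1 - a i) / ((a i - T) * (a i - s)))
     = ∑ i ∈ range m, (((s - 1) / (s - T)) * (2 * (s / (s - a i))) - 2
        - ((T - 1) / (s - T)) * (2 * (T / (T - a i)))) := by
    apply Finset.sum_congr rfl
    intro i hi
    have hi' := Finset.mem_range.mp hi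
    have e1 : s - a i ≠ 0 := sub_ne_zero.mpr (hs i hi')
    have e2 : T - a i ≠ 0 := sub_ne_zero.mpr (hT i hi')
    have e3 : a i - s ≠ 0 := by intro h; apply e1; linarith
    have e4 : a i - T ≠ 0 := by intro h; apply e2; linarith
    have e5 : a i - s = -(s - a i) := by ring
    have e6 : a i - T = -(T - a i) := by ring
    rw [e5, e6]
    field_simp
    ring
  unfold Crit at cs cT
  set S1 := ∑ i ∈ range m, 2 * (s / (s - a i)) with hS1
  set S2 := ∑ i ∈ range m, 2 * (T / (T - a i)) with hS2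
  have h1' : ∑ i ∈ range m, (((s - 1) / (s - T)) * (2 * (s / (s - a i))) - 2
        - ((T - 1) / (s - T)) * (2 * (T / (T - a i))))
      = ((s - 1) / (s - T)) * S1 - 2 * m - ((T - 1) / (s - T)) * S2 := by
    rw [hS1, hS2, Finset.sum_sub_distrib, Finset.sum_sub_distrib, Finset.mul_sum, Finset.mul_sum]
    simp only [Finset.sum_const, Finset.card_range, nsmul_eq_mul]
    ring
  rw [h1, h1']
  have c1 : (s - 1) * S1 = -(s - 1) * κ := by linarith
  have c2 : (T - 1) * S2 = -(T - 1) * κ := by linarith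
  have e1 : (s - 1) / (s - T) * S1 = -(s - 1) * κ / (s - T) := by
    rw [← c1]; ring
  have e2 : (T - 1) / (s - T) * S2 = -(T - 1) * κ / (s - T) := by
    rw [← c2]; ring
  rw [e1, e2]
  field_simp
  ring

/-- test data: critical points of all gaps -/
structure Data (κ m : ℕ) (w t : ℕ → ℝ) : Prop where
  srt : Srt m w
  pos : ∀ k, k ≤ m → Pos κ m w k (t k)
  crit : ∀ k, k ≤ m → lam κ m w k (t k) = 0
  val : ∀ k, k ≤ m → G κ m w (t k) = Mx κ m w k

lemma exists_data {κ m : ℕ} {w : ℕ → ℝ} (hw : Srt m w) : ∃ t, Data κ m w t := by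
  have : ∀ k, ∃ s, k ≤ m → (Pos κ m w k s ∧ G κ m w s = Mx κ m w k ∧ lam κ m w k s = 0) := by
    intro k
    by_cases hk : k ≤ m
    · obtain ⟨s, h1, h2, h3, h4⟩ := exists_crit (κ := κ) hw hk
      exact ⟨s, fun _ => ⟨h1, h2, h4⟩⟩
    · exact ⟨0, fun h => absurd h hk⟩
  choose t ht using this
  exact ⟨t, hw, fun k hk => (ht k hk).1, fun k hk => (ht k hk).2.2, fun k hk => (ht k hk).2.1⟩

variable {κ m : ℕ} {w t : ℕ → ℝ}

lemma Data.ne (h : Data κ m w t) {k i : ℕ} (hk : k ≤ m) (hi : i < m) : t k ≠ w (i + 1) :=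
  (h.pos k hk).ne h.srt hk i hi

lemma Data.lt_succ (h : Data κ m w t) {k : ℕ} (hk : k < m) : t k < t (k + 1) := by
  have h1 := ((h.pos k hk.le).mem h.srt).2
  have h2 := ((h.pos (k + 1) hk).mem h.srt).1
  have h3 := h.ne hk.le hk
  exact lt_of_lt_of_le (lt_of_le_of_ne h1 h3) h2

lemma Data.lt (h : Data κ m w t) {j k : ℕ} (hjk : j < k) (hk : k ≤ m) : t j < t k := by
  induction k with
  | zero => omega
  | succ k ih =>
    rcases Nat.lt_succ_iff_lt_or_eq.mp hjk with h1 | h1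
    · exact (ih h1 (by omega)).trans (h.lt_succ (by omega))
    · subst h1; exact h.lt_succ (by omega)

lemma Data.nonneg (h : Data κ m w t) {k : ℕ} (hk : k ≤ m) : 0 ≤ t k :=
  (h.srt.cfg.nonneg k).trans ((h.pos k hk).mem h.srt).1

lemma Data.le_one (h : Data κ m w t) {k : ℕ} (hk : k ≤ m) : t k ≤ 1 :=
  ((h.pos k hk).mem h.srt).2.trans (h.srt.cfg.le_one _)

lemma Data.last (h : Data κ m w t) : t m = 1 := by
  rcases h.pos m le_rfl with ⟨h1, h2⟩ | ⟨h1, h2, h3, h4⟩ | ⟨h1, h2, h3, h4⟩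
  · exact h2
  · exact absurd rfl h1
  · exact absurd rfl h1

lemma Data.Crit (h : Data κ m w t) {k : ℕ} (hk : k ≤ m) : Crit κ m (fun i => w (i + 1)) (t k) :=
  crit_of_pos h.srt (h.pos k hk) (h.crit k hk)

/-- reciprocal weights -/
def ib (κ m : ℕ) (w t : ℕ → ℝ) (k : ℕ) : ℝ :=
  (κ + 2 * m : ℝ) + ∑ i ∈ range m, 2 * (w (i + 1) * (1 - w (i + 1)) / ((w (i + 1) - t k) * (w (i + 1) - t k)))

/-- weights -/
def bet (κ m : ℕ) (w t : ℕ → ℝ) (k : ℕ) : ℝ := (ib κ m w t k)⁻¹

lemma Data.ib_pos (h : Data κ m w t) (hm : 0 < m) (k : ℕ) : 0 < ib κ m w t k := by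
  unfold ib
  have h1 : (0 : ℝ) < κ + 2 * m := by
    have : (0 : ℝ) < m := by exact_mod_cast hm
    positivity
  have h2 : 0 ≤ ∑ i ∈ range m, 2 * (w (i + 1) * (1 - w (i + 1)) / ((w (i + 1) - t k) * (w (i + 1) - t k))) := by
    apply Finset.sum_nonneg
    intro i _
    have e1 := h.srt.cfg.nonneg (i + 1)
    have e2 := h.srt.cfg.le_one (i + 1)
    have e3 : 0 ≤ w (i + 1) * (1 - w (i + 1)) := mul_nonneg e1 (by linarith)
    have e4 : 0 ≤ (w (i + 1) - t k) * (w (i + 1) - t k) := mul_self_nonneg _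
    positivity
  linarith

lemma Data.bet_pos (h : Data κ m w t) (hm : 0 < m) (k : ℕ) : 0 < bet κ m w t k :=
  inv_pos.mpr (h.ib_pos hm k)

lemma Data.vanish (h : Data κ m w t) (hm : 0 < m) {i : ℕ} (hi : i < m) :
    ∑ k ∈ range (m + 1), bet κ m w t k * (2 * (w (i + 1) * (1 - w (i + 1)) / (w (i + 1) - t k))) = 0 := by
  set A : Matrix (Fin (m + 1)) (Fin (m + 1)) ℝ := fun k i => if i = 0 then 1 else 1 / (w i - t k) with hA
  set B : Matrix (Fin (m + 1)) (Fin (m + 1)) ℝ := fun i k =>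
    if i = 0 then (κ + 2 * m : ℝ) * bet κ m w t k
    else bet κ m w t k * (2 * (w i * (1 - w i) / (w i - t k))) with hB
  have hAB : A * B = 1 := by
    ext j k
    rw [Matrix.mul_apply, Fin.sum_univ_succ]
    simp only [hA, hB, if_true, one_mul, Fin.succ_ne_zero, if_false, Fin.val_succ]
    have e1 : ∑ x : Fin m, 1 / (w (x + 1) - t j) * (bet κ m w t k * (2 * (w (x + 1) * (1 - w (x + 1)) / (w (x + 1) - t k))))
        = bet κ m w t k * ∑ i ∈ range m, 2 * (w (i + 1) * (1 - w (i + 1)) / ((w (i + 1) - t k) * (w (i + 1) - t j))) := by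
      rw [Finset.sum_range, Finset.mul_sum]
      apply Finset.sum_congr rfl
      intro x _
      rw [div_mul_eq_mul_div, one_mul]
      rw [mul_div_assoc, mul_div_assoc, div_div]
    rw [e1, ← mul_comm (bet κ m w t k), ← mul_add]
    by_cases hjk : j = k
    · subst hjk
      rw [Matrix.one_apply_eq]
      exact inv_mul_cancel₀ (h.ib_pos hm j).ne'
    · rw [Matrix.one_apply_ne hjk]
      have hj : (j : ℕ) ≤ m := Nat.lt_succ_iff.mp j.2
      have hk : (k : ℕ) ≤ m := Nat.lt_succ_iff.mp k.2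
      have hne : t j ≠ t k := by
        rcases lt_trichotomy (j : ℕ) (k : ℕ) with h1 | h1 | h1
        · exact (h.lt h1 hk).ne
        · exact absurd (Fin.ext h1) hjk
        · exact (h.lt h1 hj).ne'
      have := off_diag (κ := κ) (m := m) (a := fun i => w (i + 1)) (s := t j) (T := t k) hne
        (fun i hi => h.ne hj hi) (fun i hi => h.ne hk hi) (h.Crit hj) (h.Crit hk)
      rw [this, mul_zero]
  have hBA : B * A = 1 := mul_eq_one_comm.mp hAB
  have h2 := congrFun (congrFun hBA ⟨i + 1, by omega⟩) 0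
  rw [Matrix.mul_apply, Matrix.one_apply_ne (by simp [Fin.ext_iff])] at h2
  rw [Finset.sum_range]
  rw [← h2]
  apply Finset.sum_congr rfl
  intro k _
  simp only [hA, hB, if_true, mul_one]
  rw [if_neg (by simp [Fin.ext_iff])]

/-- the direction attached to `μ` -/
def dir (κ m : ℕ) (w t μ : ℕ → ℝ) (i : ℕ) : ℝ :=
  ∑ k ∈ range (m + 1), μ k * (bet κ m w t k * (2 * (w i * (1 - w i) / (w i - t k))))

lemma dir_zero (hw : Srt m w) (μ : ℕ → ℝ) : dir κ m w t μ 0 = 0 := by
  unfold dir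
  apply Finset.sum_eq_zero
  intro k _
  rw [hw.zero]; simp

lemma dir_one (hw : Srt m w) (μ : ℕ → ℝ) (i : ℕ) (hi : m + 1 ≤ i) : dir κ m w t μ i = 0 := by
  unfold dir
  apply Finset.sum_eq_zero
  intro k _
  rw [hw.one i hi]; simp

lemma Data.dLG_dir (h : Data κ m w t) (hm : 0 < m) (μ : ℕ → ℝ) {l : ℕ} (hl : l ≤ m) :
    dLG m w (dir κ m w t μ) (t l) = 2 * μ l
      - 2 * ((κ + 2 * m : ℝ) * ∑ k ∈ range (m + 1), μ k * bet κ m w t k) := by
  unfold dLG dir
  have e1 : ∑ i ∈ range m, 2 * ((∑ k ∈ range (m + 1), μ k * (bet κ m w t k *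
      (2 * (w (i + 1) * (1 - w (i + 1)) / (w (i + 1) - t k))))) / (w (i + 1) - t l))
      = ∑ k ∈ range (m + 1), 2 * (μ k * bet κ m w t k) *
        ∑ i ∈ range m, 2 * (w (i + 1) * (1 - w (i + 1)) / ((w (i + 1) - t k) * (w (i + 1) - t l))) := by
    simp_rw [Finset.sum_div, Finset.mul_sum]
    rw [Finset.sum_comm]
    apply Finset.sum_congr rfl
    intro k _
    apply Finset.sum_congr rfl
    intro i _
    rw [← div_div]
    ring
  rw [e1]
  have e2 : ∀ k ∈ range (m + 1), 2 * (μ k * bet κ m w t k) *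
        ∑ i ∈ range m, 2 * (w (i + 1) * (1 - w (i + 1)) / ((w (i + 1) - t k) * (w (i + 1) - t l)))
      = (if k = l then 2 * μ k else 0) - 2 * ((κ + 2 * m : ℝ) * (μ k * bet κ m w t k)) := by
    intro k hk
    have hk' : k ≤ m := Nat.lt_succ_iff.mp (Finset.mem_range.mp hk)
    by_cases hkl : k = l
    · subst hkl
      rw [if_pos rfl]
      have h1 : ∑ i ∈ range m, 2 * (w (i + 1) * (1 - w (i + 1)) / ((w (i + 1) - t k) * (w (i + 1) - t k)))
        = ib κ m w t k - (κ + 2 * m : ℝ) := by unfold ib; ring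
      rw [h1]
      have h2 : bet κ m w t k * ib κ m w t k = 1 := inv_mul_cancel₀ (h.ib_pos hm k).ne'
      linear_combination 2 * μ k * h2
    · rw [if_neg hkl]
      have hne : t l ≠ t k := by
        rcases lt_trichotomy l k with h1 | h1 | h1
        · exact (h.lt h1 hk').ne
        · exact absurd h1.symm hkl
        · exact (h.lt h1 hl).ne'
      have := off_diag (κ := κ) (m := m) (a := fun i => w (i + 1)) (s := t l) (T := t k) hne
        (fun i hi => h.ne hl hi) (fun i hi => h.ne hk' hi) (h.Crit hl) (h.Crit hk')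
      have h1 : ∑ i ∈ range m, 2 * (w (i + 1) * (1 - w (i + 1)) / ((w (i + 1) - t k) * (w (i + 1) - t l)))
        = - (κ + 2 * m : ℝ) := by linarith
      rw [h1]; ring
  rw [Finset.sum_congr rfl e2, Finset.sum_sub_distrib, ← Finset.mul_sum, ← Finset.mul_sum,
    Finset.sum_ite_eq' (range (m + 1)) l, if_pos (Finset.mem_range.mpr (Nat.lt_succ_of_le hl))]

/-- directional derivative of twice the logarithm of the ratio -/
def DD (κ m : ℕ) (w t μ : ℕ → ℝ) (x y : ℝ) : ℝ :=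
  2 * ∑ k ∈ range (m + 1), μ k * (bet κ m w t k *
    (Dx m (fun i => w (i + 1)) 1 y (t k) - Dx m (fun i => w (i + 1)) x y (t k)))

lemma Data.ratio_hasDerivAt (h : Data κ m w t) (μ : ℕ → ℝ) {x y : ℝ} (hy : 0 < y) :
    HasDerivAt (fun ε => Ph κ m (mv w (dir κ m w t μ) ε) 1 y - Ph κ m (mv w (dir κ m w t μ) ε) x y)
      (DD κ m w t μ x y) 0 := by
  have h1 := Ph_mv_hasDerivAt (κ := κ) (m := m) (v := dir κ m w t μ) (x := 1) hy h.srt.cfg.nonneg
  have h2 := Ph_mv_hasDerivAt (κ := κ) (m := m) (v := dir κ m w t μ) (x := x) hy h.srt.cfg.nonneg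
  refine (h1.sub h2).congr_deriv ?_
  unfold DD Dx
  have key : ∀ x : ℝ, ∑ i ∈ range m, dir κ m w t μ (i + 1) * (2 * ((w (i + 1) - (x ^ 2 - y ^ 2)) / E x y (w (i + 1))))
      = 2 * ∑ k ∈ range (m + 1), μ k * (bet κ m w t k *
        ∑ i ∈ range m, 2 * (w (i + 1) * (1 - w (i + 1)) / (w (i + 1) - t k)) * ((w (i + 1) - (x ^ 2 - y ^ 2)) / E x y (w (i + 1)))) := by
    intro x
    unfold dir
    simp_rw [Finset.sum_mul, Finset.mul_sum]
    rw [Finset.sum_comm]
    apply Finset.sum_congr rfl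
    intro k _
    apply Finset.sum_congr rfl
    intro i _
    ring
  rw [key 1, key x, ← mul_sub, ← Finset.sum_sub_distrib]
  congr 1
  apply Finset.sum_congr rfl
  intro k _
  ring

lemma Data.sum_zero (h : Data κ m w t) (hm : 0 < m) (x y : ℝ) :
    ∑ k ∈ range (m + 1), bet κ m w t k *
      (Dx m (fun i => w (i + 1)) 1 y (t k) - Dx m (fun i => w (i + 1)) x y (t k)) = 0 := by
  have key : ∀ x : ℝ, ∑ k ∈ range (m + 1), bet κ m w t k * Dx m (fun i => w (i + 1)) x y (t k) = 0 := by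
    intro x
    unfold Dx
    simp_rw [Finset.mul_sum]
    rw [Finset.sum_comm]
    apply Finset.sum_eq_zero
    intro i hi
    have := h.vanish hm (Finset.mem_range.mp hi)
    have e : ∑ k ∈ range (m + 1), bet κ m w t k * (2 * (w (i + 1) * (1 - w (i + 1)) / (w (i + 1) - t k))
        * ((w (i + 1) - (x ^ 2 - y ^ 2)) / E x y (w (i + 1))))
       = (∑ k ∈ range (m + 1), bet κ m w t k * (2 * (w (i + 1) * (1 - w (i + 1)) / (w (i + 1) - t k))))
        * ((w (i + 1) - (x ^ 2 - y ^ 2)) / E x y (w (i + 1))) := by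
      rw [Finset.sum_mul]
      apply Finset.sum_congr rfl
      intro k _
      ring
    rw [e, this, zero_mul]
  have : ∑ k ∈ range (m + 1), bet κ m w t k *
      (Dx m (fun i => w (i + 1)) 1 y (t k) - Dx m (fun i => w (i + 1)) x y (t k))
      = ∑ k ∈ range (m + 1), bet κ m w t k * Dx m (fun i => w (i + 1)) 1 y (t k)
        - ∑ k ∈ range (m + 1), bet κ m w t k * Dx m (fun i => w (i + 1)) x y (t k) := by
    rw [← Finset.sum_sub_distrib]
    apply Finset.sum_congr rfl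
    intro k _
    ring
  rw [this, key, key, sub_zero]

end

end Pool.Agent.Helper69.CB
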