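import Pool.Agent.Helper69.CB.Dir

/-! A strict jump between gap maxima gives a descent direction. -/

namespace Pool.Agent.Helper69.CB

open Finset Filter Topology

noncomputable section

variable {κ m : ℕ} {w t : ℕ → ℝ}

/-- tails are positive -/
lemma tail_pos {m k : ℕ} {b D : ℕ → ℝ} (hb : ∀ j, 0 < b j) (hk : 1 ≤ k) (hkm : k ≤ m)
    (hsum : ∑ j ∈ range (m + 1), b j * D j = 0) (hlast : 0 < D m)
    (hcross : ∀ i j, i < j → j ≤ m → 0 ≤ D i → 0 < D j) :
    0 < ∑ j ∈ range (m + 1), (if k ≤ j then b j * D j else 0) := by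
  rcases le_or_gt 0 (D k) with h | h
  · apply Finset.sum_pos'
    · intro j hj
      have hj' : j ≤ m := Nat.lt_succ_iff.mp (Finset.mem_range.mp hj)
      split_ifs with h1
      · rcases eq_or_lt_of_le h1 with h2 | h2
        · subst h2; exact mul_nonneg (hb _).le h
        · exact mul_nonneg (hb _).le (hcross k j h2 hj' h).le
      · exact le_rfl
    · exact ⟨m, Finset.mem_range.mpr (Nat.lt_succ_self m), by rw [if_pos hkm]; exact mul_pos (hb m) hlast⟩
  · have h1 : ∑ j ∈ range (m + 1), (if k ≤ j then b j * D j else 0)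
       = - ∑ j ∈ range (m + 1), (if k ≤ j then 0 else b j * D j) := by
      have : ∑ j ∈ range (m + 1), (if k ≤ j then b j * D j else 0)
         + ∑ j ∈ range (m + 1), (if k ≤ j then 0 else b j * D j) = 0 := by
        rw [← Finset.sum_add_distrib]
        refine Eq.trans ?_ hsum
        apply Finset.sum_congr rfl
        intro j _
        split_ifs <;> simp
      linarith
    rw [h1]
    have hneg : ∀ j, j < k → D j < 0 := by
      intro j hj
      by_contra hc
      push Not at hc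
      linarith [hcross j k hj hkm hc]
    have : ∑ j ∈ range (m + 1), (if k ≤ j then 0 else b j * D j) < 0 := by
      apply Finset.sum_neg'
      · intro j _
        split_ifs with h2
        · exact le_rfl
        · exact (mul_neg_of_pos_of_neg (hb j) (hneg j (by omega))).le
      · refine ⟨0, Finset.mem_range.mpr (Nat.succ_pos m), ?_⟩
        rw [if_neg (by omega)]
        exact mul_neg_of_pos_of_neg (hb 0) (hneg 0 (by omega))
    linarith

/-- stationarity data at `x+iy` -/
structure Stat (κ m : ℕ) (w : ℕ → ℝ) (x y : ℝ) : Prop where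
  y0 : 0 < y
  y1 : y < 1
  x0 : 0 ≤ x
  x1 : x < 1
  hx : x * SA κ m (fun i => w (i + 1)) x y = 0
  hxy : SB κ m (fun i => w (i + 1)) 1 y = SB κ m (fun i => w (i + 1)) x y

lemma Data.D_form (h : Data κ m w t) {x y : ℝ} (hs : Stat κ m w x y) {j : ℕ} (hj : j ≤ m) :
    Dx m (fun i => w (i + 1)) 1 y (t j) - Dx m (fun i => w (i + 1)) x y (t j)
      = y ^ 2 * Nh (SA κ m (fun i => w (i + 1)) 1 y)
          (SB κ m (fun i => w (i + 1)) x y * (1 - x ^ 2)) x y (t j) / (E 1 y (t j) * E x y (t j)) :=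
  Dx_sub hs.y0 (h.nonneg hj) (fun i _ => h.srt.cfg.nonneg _) (fun i hi => (h.ne hj hi).symm)
    (h.Crit hj) hs.hx hs.hxy

lemma Data.jump (h : Data κ m w t) (hm : 0 < m) {x y : ℝ} (hs : Stat κ m w x y) {k : ℕ}
    (hk : 1 ≤ k) (hkm : k ≤ m) :
    ∃ μ : ℕ → ℝ, (∀ j, j + 1 ≠ k → μ j < μ (j + 1)) ∧ μ m < μ 0 ∧ DD κ m w t μ x y < 0 := by
  set a : ℕ → ℝ := fun i => w (i + 1) with ha
  have ha0 : ∀ i < m, 0 ≤ a i := fun _ _ => h.srt.cfg.nonneg _
  have ha1 : ∀ i < m, a i ≤ 1 := fun _ _ => h.srt.cfg.le_one _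
  have hκ : (0 : ℝ) ≤ κ := Nat.cast_nonneg κ
  have hn : (0 : ℝ) < κ + 2 * m := by
    have : (0 : ℝ) < m := by exact_mod_cast hm
    positivity
  have hd : 0 < 1 - x ^ 2 := by nlinarith [hs.x0, hs.x1]
  have g0 := SA_pos hκ hn hs.y0 ha0 ha1
  have t0 := SB_pos (x := x) hκ hn hs.y0 ha0
  have hkey := key_neg hκ hn hs.y0 hs.y1 hs.x0 hs.x1 ha0 hs.hx hs.hxy
  set g := SA κ m a 1 y with hg
  set tt := SB κ m a x y with htt
  have hr : 0 < tt * (1 - x ^ 2) := mul_pos t0 hd
  set D : ℕ → ℝ := fun j => Dx m a 1 y (t j) - Dx m a x y (t j) with hD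
  have hDform : ∀ j, j ≤ m → D j = y ^ 2 * Nh g (tt * (1 - x ^ 2)) x y (t j) / (E 1 y (t j) * E x y (t j)) :=
    fun j hj => h.D_form hs hj
  have hEpos : ∀ j, j ≤ m → 0 < E 1 y (t j) * E x y (t j) := fun j hj =>
    mul_pos (E_pos hs.y0 (h.nonneg hj)) (E_pos hs.y0 (h.nonneg hj))
  have hy2 : 0 < y ^ 2 := pow_pos hs.y0 2
  have hlast : 0 < D m := by
    rw [hDform m le_rfl]
    apply div_pos _ (hEpos m le_rfl)
    rw [h.last]
    exact mul_pos hy2 (Nh_one_pos g0 hs.y0)
  have hcross : ∀ i j, i < j → j ≤ m → 0 ≤ D i → 0 < D j := by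
    intro i j hij hj hi
    have hi' : i ≤ m := by omega
    rw [hDform i hi'] at hi
    rw [hDform j hj]
    have h1 : 0 ≤ Nh g (tt * (1 - x ^ 2)) x y (t i) := by
      by_contra hc
      push Not at hc
      have : y ^ 2 * Nh g (tt * (1 - x ^ 2)) x y (t i) / (E 1 y (t i) * E x y (t i)) < 0 :=
        div_neg_of_neg_of_pos (mul_neg_of_pos_of_neg hy2 hc) (hEpos i hi')
      linarith
    have h2 := Nh_cross g0 hr hs.y0 hs.x0 hs.x1 hkey (h.nonneg hi') (h.lt hij hj) (h.le_one hj) h1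
    exact div_pos (mul_pos hy2 h2) (hEpos j hj)
  have hS := tail_pos (b := bet κ m w t) (D := D) (fun j => h.bet_pos hm j) hk hkm (h.sum_zero hm x y)
    hlast hcross
  set S := ∑ j ∈ range (m + 1), (if k ≤ j then bet κ m w t j * D j else 0) with hSdef
  set T := ∑ j ∈ range (m + 1), (j : ℝ) * (bet κ m w t j * D j) with hT
  set η := min (1 / (2 * ((m : ℝ) + 1))) (S / (2 * (|T| + 1))) with hη
  have hη0 : 0 < η := by
    apply lt_min
    · positivity
    · positivity
  have hη1 : η * m < 1 := by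
    have h1 : η ≤ 1 / (2 * ((m : ℝ) + 1)) := min_le_left _ _
    have h2 : 1 / (2 * ((m : ℝ) + 1)) * m < 1 := by
      rw [div_mul_eq_mul_div, one_mul, div_lt_one (by positivity)]
      have : (0 : ℝ) ≤ m := Nat.cast_nonneg m
      linarith
    have h3 : η * m ≤ 1 / (2 * ((m : ℝ) + 1)) * m := mul_le_mul_of_nonneg_right h1 (Nat.cast_nonneg m)
    linarith
  have hη2 : η * T < S := by
    have h1 : η ≤ S / (2 * (|T| + 1)) := min_le_right _ _
    have h2 : η * T ≤ η * |T| := mul_le_mul_of_nonneg_left (le_abs_self T) hη0.le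
    have h3 : η * |T| ≤ S / (2 * (|T| + 1)) * |T| := mul_le_mul_of_nonneg_right h1 (abs_nonneg T)
    have h4 : S / (2 * (|T| + 1)) * |T| < S := by
      rw [div_mul_eq_mul_div, div_lt_iff₀ (by positivity)]
      nlinarith [abs_nonneg T]
    linarith
  refine ⟨fun j => η * j - (if k ≤ j then 1 else 0), ?_, ?_, ?_⟩
  · intro j hj
    simp only
    push_cast
    have : (k ≤ j ↔ k ≤ j + 1) := by omega
    by_cases h1 : k ≤ j
    · rw [if_pos h1, if_pos (by omega)]; linarith
    · rw [if_neg h1, if_neg (by omega)]; linarith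
  · simp only
    rw [if_pos hkm, if_neg (by omega)]
    simp
    linarith
  · unfold DD
    have e : ∑ j ∈ range (m + 1), (η * (j : ℝ) - (if k ≤ j then (1 : ℝ) else 0)) * (bet κ m w t j *
        (Dx m (fun i => w (i + 1)) 1 y (t j) - Dx m (fun i => w (i + 1)) x y (t j))) = η * T - S := by
      rw [hT, hSdef, Finset.mul_sum, ← Finset.sum_sub_distrib]
      apply Finset.sum_congr rfl
      intro j _
      simp only [hD, ha]
      split_ifs <;> ring
    rw [e]
    linarith

end

end Pool.Agent.Helper69.CB
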