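import Pool.Agent.Helper69.CB.Jump
import Pool.Agent.Helper69.CB.Cheb

/-! Compactness argument and the core theorem. -/

namespace Pool.Agent.Helper69.CB

open Finset Filter Topology

noncomputable section

/-- admissible configurations -/
def Bd (κ m : ℕ) (δ : ℝ) : Set (ℕ → ℝ) :=
  {w | Cfg m w ∧ (∀ k, k < m → Mx κ m w k ≤ Mx κ m w (k + 1)) ∧ δ * Mx κ m w m ≤ Mx κ m w 0}

lemma Bd_closed (κ m : ℕ) (δ : ℝ) : IsClosed (Bd κ m δ) := by
  have h1 : IsClosed {w : ℕ → ℝ | w 0 = 0} := isClosed_eq (continuous_apply 0) continuous_const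
  have h2 : IsClosed {w : ℕ → ℝ | ∀ i, m + 1 ≤ i → w i = 1} := by
    have : {w : ℕ → ℝ | ∀ i, m + 1 ≤ i → w i = 1} = ⋂ i, {w : ℕ → ℝ | m + 1 ≤ i → w i = 1} := by
      ext w; simp
    rw [this]
    apply isClosed_iInter
    intro i
    by_cases hi : m + 1 ≤ i
    · have e : {w : ℕ → ℝ | m + 1 ≤ i → w i = 1} = {w : ℕ → ℝ | w i = 1} := by
        ext w; simp [hi]
      rw [e]
      exact isClosed_eq (continuous_apply i) continuous_const
    · have e : {w : ℕ → ℝ | m + 1 ≤ i → w i = 1} = Set.univ := by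
        ext w; simp [hi]
      rw [e]
      exact isClosed_univ
  have h3 : IsClosed {w : ℕ → ℝ | ∀ i, w i ≤ w (i + 1)} := by
    have : {w : ℕ → ℝ | ∀ i, w i ≤ w (i + 1)} = ⋂ i, {w : ℕ → ℝ | w i ≤ w (i + 1)} := by
      ext w; simp
    rw [this]
    apply isClosed_iInter
    intro i
    exact isClosed_le (continuous_apply i) (continuous_apply (i + 1))
  have h4 : IsClosed {w : ℕ → ℝ | ∀ k, k < m → Mx κ m w k ≤ Mx κ m w (k + 1)} := by
    have : {w : ℕ → ℝ | ∀ k, k < m → Mx κ m w k ≤ Mx κ m w (k + 1)}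
      = ⋂ k, {w : ℕ → ℝ | k < m → Mx κ m w k ≤ Mx κ m w (k + 1)} := by
      ext w; simp
    rw [this]
    apply isClosed_iInter
    intro k
    by_cases hk : k < m
    · have e : {w : ℕ → ℝ | k < m → Mx κ m w k ≤ Mx κ m w (k + 1)}
        = {w : ℕ → ℝ | Mx κ m w k ≤ Mx κ m w (k + 1)} := by
        ext w; simp [hk]
      rw [e]
      exact isClosed_le (Mx_cont κ m k) (Mx_cont κ m (k + 1))
    · have e : {w : ℕ → ℝ | k < m → Mx κ m w k ≤ Mx κ m w (k + 1)} = Set.univ := by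
        ext w; simp [hk]
      rw [e]
      exact isClosed_univ
  have h5 : IsClosed {w : ℕ → ℝ | δ * Mx κ m w m ≤ Mx κ m w 0} :=
    isClosed_le (continuous_const.mul (Mx_cont κ m m)) (Mx_cont κ m 0)
  have : Bd κ m δ = ({w : ℕ → ℝ | w 0 = 0} ∩ {w : ℕ → ℝ | ∀ i, m + 1 ≤ i → w i = 1}
      ∩ {w : ℕ → ℝ | ∀ i, w i ≤ w (i + 1)})
      ∩ ({w : ℕ → ℝ | ∀ k, k < m → Mx κ m w k ≤ Mx κ m w (k + 1)}
      ∩ {w : ℕ → ℝ | δ * Mx κ m w m ≤ Mx κ m w 0}) := by
    ext w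
    simp only [Bd, Set.mem_ofPred_eq, Set.mem_inter_iff]
    constructor
    · rintro ⟨⟨a, b, c⟩, d, e⟩
      exact ⟨⟨⟨a, b⟩, c⟩, d, e⟩
    · rintro ⟨⟨⟨a, b⟩, c⟩, d, e⟩
      exact ⟨⟨a, b, c⟩, d, e⟩
  rw [this]
  exact ((h1.inter h2).inter h3).inter (h4.inter h5)

lemma Bd_compact (κ m : ℕ) (δ : ℝ) : IsCompact (Bd κ m δ) := by
  have h : IsCompact (Set.pi Set.univ (fun _ : ℕ => Set.Icc (0 : ℝ) 1)) :=
    isCompact_univ_pi fun _ => isCompact_Icc
  apply h.of_isClosed_subset (Bd_closed κ m δ)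
  intro w hw i _
  exact ⟨hw.1.nonneg i, hw.1.le_one i⟩

lemma Bd_chain {κ m : ℕ} {δ : ℝ} {w : ℕ → ℝ} (hw : w ∈ Bd κ m δ) {j k : ℕ} (hjk : j ≤ k)
    (hk : k ≤ m) : Mx κ m w j ≤ Mx κ m w k := by
  induction k with
  | zero =>
    have : j = 0 := by omega
    subst this; exact le_rfl
  | succ k ih =>
    rcases Nat.lt_or_ge j (k + 1) with h | h
    · exact (ih (by omega) (by omega)).trans (hw.2.1 k (by omega))
    · have : j = k + 1 := by omega
      subst this; exact le_rfl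

lemma Bd_srt {κ m : ℕ} {δ : ℝ} (hδ : 0 < δ) (hm : 0 < m) {w : ℕ → ℝ} (hw : w ∈ Bd κ m δ) :
    Srt m w ∧ ∀ k, k ≤ m → 0 < Mx κ m w k := by
  have hlast : 0 < Mx κ m w m := by
    have hinf : (Set.Ioo (0 : ℝ) 1).Infinite := Set.Ioo_infinite (by norm_num)
    obtain ⟨s, hs, hns⟩ := hinf.exists_notMem_finset ((range m).image fun i => w (i + 1))
    have hG : 0 < G κ m w s := by
      apply G_pos hs.1.le
      · intro h; exact absurd h hs.1.ne'
      · intro i hi h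
        apply hns
        rw [Finset.mem_image]
        exact ⟨i, Finset.mem_range.mpr hi, h.symm⟩
    obtain ⟨k, hk, hmem⟩ := exists_gap hw.1 hs.1.le hs.2.le
    obtain ⟨_, _, _, hmax⟩ := Mx_attained κ m hw.1 k
    exact lt_of_lt_of_le hG ((hmax s hmem).trans (Bd_chain hw hk le_rfl))
  have hfirst : 0 < Mx κ m w 0 := lt_of_lt_of_le (mul_pos hδ hlast) hw.2.2
  have hall : ∀ k, k ≤ m → 0 < Mx κ m w k := fun k hk =>
    lt_of_lt_of_le hfirst (Bd_chain hw (Nat.zero_le k) hk)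
  refine ⟨⟨hw.1.zero, hw.1.one, ?_⟩, hall⟩
  intro k hk
  rcases eq_or_lt_of_le (hw.1.le k) with h | h
  · exfalso
    obtain ⟨s, hs, he, _⟩ := Mx_attained κ m hw.1 k
    have hpos := hall k hk
    have hs1 : s = w k := le_antisymm (by rw [h]; exact hs.2) hs.1
    have hG0 : G κ m w s = 0 := by
      unfold G
      rcases Nat.eq_zero_or_pos k with h0 | h0
      · rw [Finset.prod_eq_zero (Finset.mem_range.mpr hm), mul_zero]
        rw [hs1, h0, ← h0, h, h0]; simp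
      · rw [Finset.prod_eq_zero (i := k - 1) (Finset.mem_range.mpr (by omega)), mul_zero]
        rw [Nat.sub_add_cancel h0, hs1]; simp
    rw [← he, hG0] at hpos
    exact lt_irrefl _ hpos
  · exact h

lemma Pz_one_pos {κ m : ℕ} {w : ℕ → ℝ} (hw : Srt m w) (y : ℝ) : 0 < Pz κ m w 1 y := by
  unfold Pz
  apply mul_pos
  · positivity
  · apply Finset.prod_pos
    intro i hi
    have hi' := Finset.mem_range.mp hi
    have h1 : w (i + 1) < 1 := by
      have := hw.strict (i := i + 1) (j := m + 1) (by omega) (by omega)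
      rwa [hw.one (m + 1) le_rfl] at this
    unfold E
    rcases eq_or_ne y 0 with h | h
    · subst h
      have : 0 < (1 : ℝ) ^ 2 - 0 ^ 2 - w (i + 1) := by norm_num; exact h1
      positivity
    · have : 0 < y ^ 2 := by positivity
      nlinarith [sq_nonneg ((1 : ℝ) ^ 2 - y ^ 2 - w (i + 1))]

lemma Pz_nonneg (κ m : ℕ) (w : ℕ → ℝ) (x y : ℝ) : 0 ≤ Pz κ m w x y := by
  rw [← norm_Qc_sq]; positivity

lemma Pz_pos {κ m : ℕ} {w : ℕ → ℝ} (hw : ∀ i, 0 ≤ w i) {x y : ℝ} (hy : 0 < y) :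
    0 < Pz κ m w x y := by
  unfold Pz
  apply mul_pos
  · positivity
  · exact Finset.prod_pos fun i _ => E_pos hy (hw _)

lemma Ph_eq {κ m : ℕ} {w : ℕ → ℝ} (hw : ∀ i, 0 ≤ w i) {x y : ℝ} (hy : 0 < y) :
    Ph κ m w x y = Real.log (Pz κ m w x y) := by
  unfold Ph Pz
  rw [Real.log_mul (by positivity) (Finset.prod_ne_zero_iff.mpr fun i _ => (E_pos hy (hw _)).ne'),
    Real.log_pow, Real.log_prod fun i _ => (E_pos hy (hw _)).ne']

/-- far from the axis the comparison is termwise -/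
lemma Pz_far {κ m : ℕ} {w : ℕ → ℝ} (hw1 : ∀ i, w i ≤ 1) {x y : ℝ}
    (hx : x ^ 2 ≤ 1) (hy : 1 ≤ 2 * y ^ 2) : Pz κ m w x y ≤ Pz κ m w 1 y := by
  unfold Pz
  apply mul_le_mul
  · apply pow_le_pow_left₀ (by positivity)
    linarith
  · apply Finset.prod_le_prod
    · intro i _; unfold E; positivity
    · intro i _
      have h1 := hw1 (i + 1)
      have : E 1 y (w (i + 1)) - E x y (w (i + 1))
          = (1 - x ^ 2) * (1 + x ^ 2 + 2 * y ^ 2 - 2 * w (i + 1)) := by unfold E; ring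
      have h2 : 0 ≤ (1 - x ^ 2) * (1 + x ^ 2 + 2 * y ^ 2 - 2 * w (i + 1)) := by
        apply mul_nonneg (by linarith)
        nlinarith [sq_nonneg x]
      linarith
  · exact Finset.prod_nonneg fun i _ => by unfold E; positivity
  · positivity

lemma Ph_hasDerivAt_x {κ m : ℕ} {w : ℕ → ℝ} (hw : ∀ i, 0 ≤ w i) {x y : ℝ} (hy : 0 < y) :
    HasDerivAt (fun x => Ph κ m w x y) (2 * (x * SA κ m (fun i => w (i + 1)) x y)) x := by
  have hA : x ^ 2 + y ^ 2 ≠ 0 := by positivity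
  unfold Ph
  have h1 : HasDerivAt (fun x : ℝ => (κ : ℝ) * Real.log (x ^ 2 + y ^ 2)) (κ * (2 * x / (x ^ 2 + y ^ 2))) x := by
    have e : HasDerivAt (fun x : ℝ => x ^ 2 + y ^ 2) (2 * x) x := by
      simpa using ((hasDerivAt_id x).fun_pow 2).add_const (y ^ 2)
    exact (e.log hA).const_mul _
  have h2 : HasDerivAt (fun x : ℝ => ∑ i ∈ range m, Real.log (E x y (w (i + 1))))
      (∑ i ∈ range m, (4 * x * (x ^ 2 + y ^ 2 - w (i + 1))) / E x y (w (i + 1))) x := by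
    apply HasDerivAt.fun_sum
    intro i _
    have hE : E x y (w (i + 1)) ≠ 0 := (E_pos hy (hw _)).ne'
    have e : HasDerivAt (fun x : ℝ => E x y (w (i + 1))) (4 * x * (x ^ 2 + y ^ 2 - w (i + 1))) x := by
      unfold E
      have e1 : HasDerivAt (fun x : ℝ => x ^ 2) (2 * x) x := by
        simpa using (hasDerivAt_id x).fun_pow 2
      have e2 := (((e1.sub_const (y ^ 2)).sub_const (w (i + 1))).fun_pow 2).add
        ((e1.const_mul 4).mul_const (y ^ 2))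
      refine e2.congr_deriv ?_
      push_cast
      ring
    exact e.log hE
  refine (h1.add h2).congr_deriv ?_
  unfold SA
  rw [mul_add, mul_add, Finset.mul_sum, Finset.mul_sum]
  congr 1
  · ring
  · apply Finset.sum_congr rfl
    intro i _
    ring

lemma Ph_hasDerivAt_y {κ m : ℕ} {w : ℕ → ℝ} (hw : ∀ i, 0 ≤ w i) {x y : ℝ} (hy : 0 < y) :
    HasDerivAt (fun y => Ph κ m w x y) (2 * (y * SB κ m (fun i => w (i + 1)) x y)) y := by
  have hA : x ^ 2 + y ^ 2 ≠ 0 := by positivity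
  unfold Ph
  have h1 : HasDerivAt (fun y : ℝ => (κ : ℝ) * Real.log (x ^ 2 + y ^ 2)) (κ * (2 * y / (x ^ 2 + y ^ 2))) y := by
    have e : HasDerivAt (fun y : ℝ => x ^ 2 + y ^ 2) (2 * y) y := by
      simpa using ((hasDerivAt_id y).fun_pow 2).const_add (x ^ 2)
    exact (e.log hA).const_mul _
  have h2 : HasDerivAt (fun y : ℝ => ∑ i ∈ range m, Real.log (E x y (w (i + 1))))
      (∑ i ∈ range m, (4 * y * (x ^ 2 + y ^ 2 + w (i + 1))) / E x y (w (i + 1))) y := by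
    apply HasDerivAt.fun_sum
    intro i _
    have hE : E x y (w (i + 1)) ≠ 0 := (E_pos hy (hw _)).ne'
    have e : HasDerivAt (fun y : ℝ => E x y (w (i + 1))) (4 * y * (x ^ 2 + y ^ 2 + w (i + 1))) y := by
      unfold E
      have e1 : HasDerivAt (fun y : ℝ => y ^ 2) (2 * y) y := by
        simpa using (hasDerivAt_id y).fun_pow 2
      have e2 := (((e1.const_sub (x ^ 2)).sub_const (w (i + 1))).fun_pow 2).add
        (e1.const_mul (4 * x ^ 2))
      refine e2.congr_deriv ?_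
      push_cast
      ring
    exact e.log hE
  refine (h1.add h2).congr_deriv ?_
  unfold SB
  rw [mul_add, mul_add, Finset.mul_sum, Finset.mul_sum]
  congr 1
  · ring
  · apply Finset.sum_congr rfl
    intro i _
    ring

lemma Pz_cont_on (κ m : ℕ) : Continuous (fun p : (ℕ → ℝ) × ℝ × ℝ => Pz κ m p.1 p.2.1 p.2.2) := by
  unfold Pz E
  fun_prop

/-- core theorem -/
theorem core {κ m : ℕ} (hκ : κ ≤ 1) (hm : 0 < m) {δ : ℝ} (hδ : 0 < δ) {w : ℕ → ℝ}
    (hw : w ∈ Bd κ m δ) {x y : ℝ} (hx : x ∈ Set.Icc (0 : ℝ) 1) (hy : y ∈ Set.Icc (0 : ℝ) 1) :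
    Pz κ m w x y ≤ Pz κ m w 1 y := by
  by_contra hcon
  push Not at hcon
  set K : Set ((ℕ → ℝ) × ℝ × ℝ) := Bd κ m δ ×ˢ (Set.Icc (0 : ℝ) 1 ×ˢ Set.Icc (0 : ℝ) 1) with hK
  have hKc : IsCompact K := (Bd_compact κ m δ).prod (isCompact_Icc.prod isCompact_Icc)
  set H : (ℕ → ℝ) × ℝ × ℝ → ℝ := fun p => Pz κ m p.1 p.2.1 p.2.2 / Pz κ m p.1 1 p.2.2 with hH
  have hHc : ContinuousOn H K := by
    apply ContinuousOn.div (Pz_cont_on κ m).continuousOn
    · have : Continuous (fun p : (ℕ → ℝ) × ℝ × ℝ => Pz κ m p.1 1 p.2.2) := by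
        unfold Pz E
        fun_prop
      exact this.continuousOn
    · intro p hp
      exact (Pz_one_pos (Bd_srt hδ hm hp.1).1 _).ne'
  obtain ⟨⟨w₀, x₀, y₀⟩, hp₀, hmax⟩ := hKc.exists_isMaxOn ⟨(w, x, y), hw, hx, hy⟩ hHc
  obtain ⟨hw₀, hx₀, hy₀⟩ := hp₀
  simp only at hw₀ hx₀ hy₀
  obtain ⟨hs₀, hMpos⟩ := Bd_srt hδ hm hw₀
  have hgt : 1 < H (w₀, x₀, y₀) := by
    have h1 : H (w, x, y) ≤ H (w₀, x₀, y₀) := hmax (Set.mk_mem_prod hw (Set.mk_mem_prod hx hy))
    refine lt_of_lt_of_le ?_ h1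
    simp only [hH]
    rw [lt_div_iff₀ (Pz_one_pos (Bd_srt hδ hm hw).1 _), one_mul]
    exact hcon
  have hgt' : Pz κ m w₀ 1 y₀ < Pz κ m w₀ x₀ y₀ := by
    simp only [hH] at hgt
    rwa [lt_div_iff₀ (Pz_one_pos hs₀ _), one_mul] at hgt
  have hx₀1 : x₀ < 1 := by
    rcases eq_or_lt_of_le hx₀.2 with h | h
    · rw [h] at hgt'; exact absurd hgt' (lt_irrefl _)
    · exact h
  have hy₀1 : 2 * y₀ ^ 2 < 1 := by
    by_contra h
    push Not at h
    have := Pz_far (κ := κ) (m := m) (w := w₀) (x := x₀) hw₀.1.le_one (by nlinarith [hx₀.1, hx₀.2]) h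
    linarith
  have hy₀0 : 0 < y₀ := by
    rcases eq_or_lt_of_le hy₀.1 with h | h
    · exfalso
      rw [← h] at hgt'
      have e : ∀ x, Pz κ m w₀ x 0 = G κ m w₀ (x ^ 2) := by
        intro x
        unfold Pz G E
        congr 1
        · ring
        · apply Finset.prod_congr rfl
          intro i _
          ring
      rw [e, e] at hgt'
      obtain ⟨k, hk, hmem⟩ := exists_gap hw₀.1 (sq_nonneg x₀) (by nlinarith [hx₀.1, hx₀.2])
      obtain ⟨_, _, _, hmx⟩ := Mx_attained κ m hw₀.1 k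
      have h1 := (hmx _ hmem).trans (Bd_chain hw₀ hk le_rfl)
      rw [Mx_last hw₀.1] at h1
      rw [one_pow] at hgt'
      linarith
    · exact h
  have hy₀lt : y₀ < 1 := by nlinarith
  have hwn := hw₀.1.nonneg
  -- comparison of logarithms
  have hlog : ∀ w' ∈ Bd κ m δ, ∀ x' ∈ Set.Icc (0 : ℝ) 1, ∀ y' ∈ Set.Icc (0 : ℝ) 1, 0 < y' →
      Ph κ m w' x' y' - Ph κ m w' 1 y' ≤ Ph κ m w₀ x₀ y₀ - Ph κ m w₀ 1 y₀ := by
    intro w' hw' x' hx' y' hy' hy'0
    have h1 : H (w', x', y') ≤ H (w₀, x₀, y₀) := hmax (Set.mk_mem_prod hw' (Set.mk_mem_prod hx' hy'))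
    simp only [hH] at h1
    have p1 := Pz_pos (κ := κ) (m := m) hw'.1.nonneg (x := x') hy'0
    have p2 := Pz_pos (κ := κ) (m := m) hw'.1.nonneg (x := 1) hy'0
    have p3 := Pz_pos (κ := κ) (m := m) hwn (x := x₀) hy₀0
    have p4 := Pz_pos (κ := κ) (m := m) hwn (x := 1) hy₀0
    rw [Ph_eq hw'.1.nonneg hy'0, Ph_eq hw'.1.nonneg hy'0, Ph_eq hwn hy₀0, Ph_eq hwn hy₀0,
      ← Real.log_div p1.ne' p2.ne', ← Real.log_div p3.ne' p4.ne']
    exact Real.log_le_log (div_pos p1 p2) h1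
  -- stationarity
  have hstat : Stat κ m w₀ x₀ y₀ := by
    refine ⟨hy₀0, hy₀lt, hx₀.1, hx₀1, ?_, ?_⟩
    · rcases eq_or_lt_of_le hx₀.1 with h | h
      · rw [← h, zero_mul]
      · have hd := Ph_hasDerivAt_x (κ := κ) (m := m) hwn (x := x₀) hy₀0
        have hloc : IsLocalMax (fun x => Ph κ m w₀ x y₀) x₀ := by
          filter_upwards [Ioo_mem_nhds h hx₀1] with u hu
          have := hlog w₀ hw₀ u ⟨hu.1.le, hu.2.le⟩ y₀ hy₀ hy₀0
          linarith
        have := hloc.hasDerivAt_eq_zero hd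
        linarith
    · have hd1 := Ph_hasDerivAt_y (κ := κ) (m := m) hwn (x := x₀) hy₀0
      have hd2 := Ph_hasDerivAt_y (κ := κ) (m := m) hwn (x := 1) hy₀0
      have hloc : IsLocalMax (fun y => Ph κ m w₀ x₀ y - Ph κ m w₀ 1 y) y₀ := by
        filter_upwards [Ioo_mem_nhds hy₀0 hy₀lt] with u hu
        exact hlog w₀ hw₀ x₀ hx₀ u ⟨hu.1.le, hu.2.le⟩ hu.1
      have h3 := hloc.hasDerivAt_eq_zero (hd1.sub hd2)
      have h4 : y₀ * (SB κ m (fun i => w₀ (i + 1)) x₀ y₀ - SB κ m (fun i => w₀ (i + 1)) 1 y₀) = 0 := by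
        linarith
      rcases mul_eq_zero.mp h4 with h5 | h5
      · exact absurd h5 hy₀0.ne'
      · linarith
  obtain ⟨t, hdat⟩ := exists_data (κ := κ) hs₀
  -- no strict jumps
  have hnojump : ∀ k, k < m → Mx κ m w₀ k = Mx κ m w₀ (k + 1) := by
    intro k hk
    rcases eq_or_lt_of_le (hw₀.2.1 k hk) with h | h
    · exact h
    exfalso
    obtain ⟨μ, hμ1, hμ2, hμ3⟩ := hdat.jump hm hstat (k := k + 1) (by omega) (by omega)
    set v := dir κ m w₀ t μ with hv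
    have hv0 : v 0 = 0 := dir_zero hs₀ μ
    have hv1 : ∀ i, m + 1 ≤ i → v i = 0 := dir_one hs₀ μ
    have hmem : ∀ᶠ ε in 𝓝[>] (0 : ℝ), mv w₀ v ε ∈ Bd κ m δ := by
      have e1 := (mv_srt hs₀ hv0 hv1).filter_mono (nhdsWithin_le_nhds (s := Set.Ioi (0:ℝ)))
      have e2 : ∀ j ∈ range m, ∀ᶠ ε in 𝓝[>] (0 : ℝ),
          1 * Mx κ m (mv w₀ v ε) j ≤ Mx κ m (mv w₀ v ε) (j + 1) := by
        intro j hj
        have hj' := Finset.mem_range.mp hj
        apply Mx_compare hs₀ hm hv0 hv1 hj'.le hj' one_pos (hdat.pos j hj'.le) (hdat.pos (j + 1) hj')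
          (hdat.val j hj'.le) (hdat.val (j + 1) hj') (hdat.crit j hj'.le)
        · rw [one_mul]; exact hw₀.2.1 j hj'
        · intro he
          rw [one_mul] at he
          rw [hv, hdat.dLG_dir hm μ hj'.le, hdat.dLG_dir hm μ hj']
          have hne : j + 1 ≠ k + 1 := by
            intro h1
            have : j = k := by omega
            subst this
            linarith
          have := hμ1 j hne
          linarith
      have e3 : ∀ᶠ ε in 𝓝[>] (0 : ℝ), δ * Mx κ m (mv w₀ v ε) m ≤ Mx κ m (mv w₀ v ε) 0 := by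
        apply Mx_compare hs₀ hm hv0 hv1 le_rfl (Nat.zero_le m) hδ (hdat.pos m le_rfl)
          (hdat.pos 0 (Nat.zero_le m)) (hdat.val m le_rfl) (hdat.val 0 (Nat.zero_le m))
          (hdat.crit m le_rfl) hw₀.2.2
        intro _
        rw [hv, hdat.dLG_dir hm μ le_rfl, hdat.dLG_dir hm μ (Nat.zero_le m)]
        linarith
      have e2' := (Filter.eventually_all_finset (range m)).mpr e2
      filter_upwards [e1, e2', e3] with ε f1 f2 f3
      refine ⟨f1.cfg, ?_, f3⟩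
      intro j hj
      have := f2 j (Finset.mem_range.mpr hj)
      rwa [one_mul] at this
    have hder := hdat.ratio_hasDerivAt μ (x := x₀) hy₀0
    rw [← hv] at hder
    set h0 : ℝ → ℝ := fun ε => (Ph κ m w₀ 1 y₀ - Ph κ m w₀ x₀ y₀)
      - (Ph κ m (mv w₀ v ε) 1 y₀ - Ph κ m (mv w₀ v ε) x₀ y₀) with hh0
    have hd0 : HasDerivAt h0 (-(DD κ m w₀ t μ x₀ y₀)) 0 := by
      have := hder.const_sub (Ph κ m w₀ 1 y₀ - Ph κ m w₀ x₀ y₀)
      exact this
    have hz : h0 0 = 0 := by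
      simp only [hh0, mv_zero]; ring
    have hev := eventually_pos_right hd0 hz.symm.le (fun _ => by linarith)
    obtain ⟨ε, hε1, hε2⟩ := (hmem.and hev).exists
    have := hlog _ hε1 x₀ hx₀ y₀ hy₀ hy₀0
    simp only [hh0] at hε2
    linarith
  have heq : ∀ k, k ≤ m → Mx κ m w₀ k = Mx κ m w₀ 0 := by
    intro k
    induction k with
    | zero => intro _; rfl
    | succ k ih =>
      intro hk
      rw [← hnojump k (by omega)]
      exact ih (by omega)
  have := hdat.equal_case hκ (hMpos 0 (Nat.zero_le m)) heq (x := x₀) (y := y₀)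
    (by rw [abs_of_nonneg hx₀.1]; exact hx₀.2)
  linarith

/-- the core theorem for all real `y` and `|x| ≤ 1` -/
theorem core' {κ m : ℕ} (hκ : κ ≤ 1) (hm : 0 < m) {δ : ℝ} (hδ : 0 < δ) {w : ℕ → ℝ}
    (hw : w ∈ Bd κ m δ) {x y : ℝ} (hx : |x| ≤ 1) :
    Pz κ m w x y ≤ Pz κ m w 1 y := by
  have e1 : ∀ x y : ℝ, Pz κ m w |x| |y| = Pz κ m w x y := by
    intro x y
    unfold Pz E
    simp only [sq_abs]
  have e2 : Pz κ m w 1 |y| = Pz κ m w 1 y := by
    unfold Pz E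
    simp only [sq_abs]
  rw [← e1, ← e2]
  have hx2 : x ^ 2 ≤ 1 := by
    rw [← sq_abs]
    exact pow_le_one₀ (abs_nonneg _) hx
  rcases le_or_gt |y| 1 with h | h
  · exact core hκ hm hδ hw ⟨abs_nonneg x, hx⟩ ⟨abs_nonneg y, h⟩
  · apply Pz_far hw.1.le_one
    · rwa [sq_abs]
    · nlinarith

end

end Pool.Agent.Helper69.CB
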