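import Pool.Agent.Helper69.CB.Alg
import Pool.Agent.Helper69.CB.Conf

/-! Perturbation of configurations. -/

namespace Pool.Agent.Helper69.CB

open Finset Filter Topology

noncomputable section

/-- moved configuration -/
def mv (w v : ℕ → ℝ) (ε : ℝ) (i : ℕ) : ℝ := w i + ε * v i

lemma mv_zero (w v : ℕ → ℝ) : mv w v 0 = w := by
  funext i; simp [mv]

lemma mv_srt {m : ℕ} {w v : ℕ → ℝ} (hw : Srt m w) (hv0 : v 0 = 0) (hv1 : ∀ i, m + 1 ≤ i → v i = 0) :
    ∀ᶠ ε in 𝓝 (0 : ℝ), Srt m (mv w v ε) := by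
  have h : ∀ i ∈ Finset.range (m + 1), ∀ᶠ ε in 𝓝 (0 : ℝ), mv w v ε i < mv w v ε (i + 1) := by
    intro i hi
    have h1 : Tendsto (fun ε : ℝ => mv w v ε (i + 1) - mv w v ε i) (𝓝 0)
        (𝓝 (mv w v 0 (i + 1) - mv w v 0 i)) := by
      apply Continuous.tendsto
      unfold mv
      fun_prop
    have h2 : 0 < mv w v 0 (i + 1) - mv w v 0 i := by
      rw [mv_zero]
      exact sub_pos.mpr (hw.lt i (Nat.lt_succ_iff.mp (Finset.mem_range.mp hi)))
    filter_upwards [h1.eventually (lt_mem_nhds h2)] with ε hε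
    linarith
  have h' := (Filter.eventually_all_finset (Finset.range (m + 1))).mpr h
  filter_upwards [h'] with ε hε
  refine ⟨?_, ?_, ?_⟩
  · simp [mv, hw.zero, hv0]
  · intro i hi
    simp [mv, hw.one i hi, hv1 i hi]
  · intro i hi
    exact hε i (Finset.mem_range.mpr (Nat.lt_succ_of_le hi))

lemma mv_pos {κ m : ℕ} {w v : ℕ → ℝ} {k : ℕ} {t : ℝ} (ht : Pos κ m w k t) :
    ∀ᶠ ε in 𝓝 (0 : ℝ), Pos κ m (mv w v ε) k t := by
  rcases ht with h | h | ⟨h1, h2, h3, h4⟩
  · exact Filter.Eventually.of_forall fun ε => Or.inl h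
  · exact Filter.Eventually.of_forall fun ε => Or.inr (Or.inl h)
  · have c1 : Tendsto (fun ε : ℝ => mv w v ε k) (𝓝 0) (𝓝 (mv w v 0 k)) := by
      apply Continuous.tendsto
      unfold mv
      fun_prop
    have c2 : Tendsto (fun ε : ℝ => mv w v ε (k + 1)) (𝓝 0) (𝓝 (mv w v 0 (k + 1))) := by
      apply Continuous.tendsto
      unfold mv
      fun_prop
    rw [mv_zero] at c1 c2
    filter_upwards [c1.eventually (gt_mem_nhds h3), c2.eventually (lt_mem_nhds h4)] with ε e1 e2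
    exact Or.inr (Or.inr ⟨h1, h2, e1, e2⟩)

/-- derivative of the logarithm at a fixed test point -/
def dLG (m : ℕ) (w v : ℕ → ℝ) (t : ℝ) : ℝ :=
  ∑ i ∈ range m, 2 * (v (i + 1) / (w (i + 1) - t))

lemma LG_mv_hasDerivAt {κ m : ℕ} {w v : ℕ → ℝ} {t : ℝ} (hne : ∀ i < m, t ≠ w (i + 1)) :
    HasDerivAt (fun ε => LG κ m (mv w v ε) t) (dLG m w v t) 0 := by
  unfold LG dLG
  have h : HasDerivAt (fun ε : ℝ => ∑ i ∈ range m, 2 * Real.log (t - mv w v ε (i + 1)))
      (∑ i ∈ range m, 2 * (v (i + 1) / (w (i + 1) - t))) 0 := by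
    apply HasDerivAt.fun_sum
    intro i hi
    have h1 : t - w (i + 1) ≠ 0 := sub_ne_zero.mpr (hne i (Finset.mem_range.mp hi))
    have h3 : HasDerivAt (fun ε : ℝ => t - mv w v ε (i + 1)) (-(v (i + 1))) 0 := by
      unfold mv
      have := (((hasDerivAt_id (0 : ℝ)).mul_const (v (i + 1))).const_add (w (i + 1))).const_sub t
      simpa using this
    have h4 : t - mv w v 0 (i + 1) ≠ 0 := by rw [mv_zero]; exact h1
    have h2 := (h3.log h4).const_mul 2
    refine h2.congr_deriv ?_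
    rw [mv_zero]
    have h5 : w (i + 1) - t ≠ 0 := by
      intro h; apply h1; linarith
    have h6 : t - w (i + 1) = -(w (i + 1) - t) := by ring
    rw [h6]
    field_simp
  exact h.const_add _

lemma Lp_mv_diff {κ m : ℕ} {w v : ℕ → ℝ} {t : ℝ} (hne : ∀ i < m, t ≠ w (i + 1)) :
    DifferentiableAt ℝ (fun ε => Lp κ m (mv w v ε) t) 0 := by
  unfold Lp
  apply DifferentiableAt.add (differentiableAt_const _)
  apply DifferentiableAt.fun_sum
  intro i hi
  have h1 : t - w (i + 1) ≠ 0 := sub_ne_zero.mpr (hne i (Finset.mem_range.mp hi))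
  have h4 : t - mv w v 0 (i + 1) ≠ 0 := by rw [mv_zero]; exact h1
  apply DifferentiableAt.const_mul
  have h5 : DifferentiableAt ℝ (fun y : ℝ => t - mv w v y (i + 1)) 0 := by
    unfold mv
    fun_prop
  exact (differentiableAt_const (1 : ℝ)).fun_div h5 h4

/-- a function with value `≥ 0` at `0`, and positive derivative in case of equality, is
eventually positive to the right -/
lemma eventually_pos_right {h : ℝ → ℝ} {d : ℝ} (hd : HasDerivAt h d 0) (h0 : 0 ≤ h 0)
    (hp : h 0 = 0 → 0 < d) : ∀ᶠ ε in 𝓝[>] (0 : ℝ), 0 < h ε := by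
  rcases eq_or_lt_of_le h0 with h1 | h1
  · have hd0 := hp h1.symm
    have h2 := hasDerivAt_iff_tendsto_slope.mp hd
    have h3 : Tendsto (slope h 0) (𝓝[>] 0) (𝓝 d) :=
      h2.mono_left (nhdsWithin_mono _ fun x hx => (ne_of_gt hx))
    filter_upwards [h3.eventually (lt_mem_nhds hd0), self_mem_nhdsWithin] with ε e1 e2
    have e3 : (0 : ℝ) < ε := e2
    rw [slope_def_field, ← h1] at e1
    simp only [sub_zero] at e1
    have := mul_pos e1 e3
    rwa [div_mul_cancel₀ _ e3.ne'] at this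
  · have := hd.continuousAt.tendsto.eventually (lt_mem_nhds h1)
    exact this.filter_mono nhdsWithin_le_nhds

/-- comparison of gap maxima along a perturbation -/
lemma Mx_compare {κ m : ℕ} {w v : ℕ → ℝ} (hw : Srt m w) (hm : 0 < m)
    (hv0 : v 0 = 0) (hv1 : ∀ i, m + 1 ≤ i → v i = 0) {a b : ℕ} (ha : a ≤ m) (hb : b ≤ m)
    {ta tb C : ℝ} (hC : 0 < C) (pa : Pos κ m w a ta) (pb : Pos κ m w b tb)
    (ga : G κ m w ta = Mx κ m w a) (gb : G κ m w tb = Mx κ m w b)
    (la : lam κ m w a ta = 0)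
    (hle : C * Mx κ m w a ≤ Mx κ m w b)
    (hd : C * Mx κ m w a = Mx κ m w b → dLG m w v ta < dLG m w v tb) :
    ∀ᶠ ε in 𝓝[>] (0 : ℝ), C * Mx κ m (mv w v ε) a ≤ Mx κ m (mv w v ε) b := by
  set h : ℝ → ℝ := fun ε => LG κ m (mv w v ε) tb - LG κ m (mv w v ε) ta
    - (lam κ m (mv w v ε) a ta) ^ 2 - Real.log C with hh
  have hla : HasDerivAt (fun ε => (lam κ m (mv w v ε) a ta) ^ 2) 0 0 := by
    unfold lam
    split_ifs with hc
    · simpa using hasDerivAt_const (0 : ℝ) (0 : ℝ)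
    · have h1 : Lp κ m w ta = 0 := by
        unfold lam at la; rwa [if_neg hc] at la
      have h2 := (Lp_mv_diff (κ := κ) (v := v) (pa.ne hw ha)).hasDerivAt
      have h3 := h2.fun_pow 2
      have h4 : Lp κ m (mv w v 0) ta = 0 := by rw [mv_zero]; exact h1
      rw [h4] at h3
      simpa using h3
  have hder : HasDerivAt h (dLG m w v tb - dLG m w v ta) 0 := by
    have h1 := LG_mv_hasDerivAt (κ := κ) (v := v) (pb.ne hw hb)
    have h2 := LG_mv_hasDerivAt (κ := κ) (v := v) (pa.ne hw ha)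
    have h3 := ((h1.sub h2).sub hla).sub_const (Real.log C)
    rw [sub_zero] at h3
    exact h3
  have hGa : 0 < Mx κ m w a := by rw [← ga]; exact pa.G_pos hw ha
  have hGb : 0 < Mx κ m w b := by rw [← gb]; exact pb.G_pos hw hb
  have h0 : h 0 = Real.log (Mx κ m w b) - Real.log (C * Mx κ m w a) := by
    simp only [hh, mv_zero]
    rw [la, LG_eq (pb.zero hw) (pb.ne hw hb), LG_eq (pa.zero hw) (pa.ne hw ha), ga, gb,
      Real.log_mul hC.ne' hGa.ne']
    ring
  have h0' : 0 ≤ h 0 := by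
    rw [h0]
    have := Real.log_le_log (mul_pos hC hGa) hle
    linarith
  have h0'' : h 0 = 0 → 0 < dLG m w v tb - dLG m w v ta := by
    intro he
    rw [h0] at he
    have h1 : Real.log (C * Mx κ m w a) = Real.log (Mx κ m w b) := by linarith
    have h2 := Real.log_injOn_pos (Set.mem_Ioi.mpr (mul_pos hC hGa)) (Set.mem_Ioi.mpr hGb) h1
    linarith [hd h2]
  have hev := eventually_pos_right hder h0' h0''
  have e1 := (mv_srt hw hv0 hv1).filter_mono (nhdsWithin_le_nhds (s := Set.Ioi (0:ℝ)))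
  have e2 := (mv_pos (v := v) pa).filter_mono (nhdsWithin_le_nhds (s := Set.Ioi (0:ℝ)))
  have e3 := (mv_pos (v := v) pb).filter_mono (nhdsWithin_le_nhds (s := Set.Ioi (0:ℝ)))
  filter_upwards [hev, e1, e2, e3] with ε f1 f2 f3 f4
  have b1 := (bracket f2 hm ha f3).2
  have b2 := (bracket f2 hm hb f4).1
  have p1 : 0 < Mx κ m (mv w v ε) a := by
    obtain ⟨_, _, _, hp, _⟩ := exists_crit (κ := κ) f2 ha
    exact hp
  have p2 : 0 < Mx κ m (mv w v ε) b := by
    obtain ⟨_, _, _, hp, _⟩ := exists_crit (κ := κ) f2 hb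
    exact hp
  rw [← Real.log_le_log_iff (mul_pos hC p1) p2, Real.log_mul hC.ne' p1.ne']
  simp only [hh] at f1
  linarith

/-- twice the logarithm of the modulus at `x+iy` -/
def Ph (κ m : ℕ) (w : ℕ → ℝ) (x y : ℝ) : ℝ :=
  κ * Real.log (x ^ 2 + y ^ 2) + ∑ i ∈ range m, Real.log (E x y (w (i + 1)))

lemma Ph_mv_hasDerivAt {κ m : ℕ} {w v : ℕ → ℝ} {x y : ℝ} (hy : 0 < y)
    (hw : ∀ i, 0 ≤ w i) :
    HasDerivAt (fun ε => Ph κ m (mv w v ε) x y)
      (∑ i ∈ range m, v (i + 1) * (2 * ((w (i + 1) - (x ^ 2 - y ^ 2)) / E x y (w (i + 1))))) 0 := by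
  unfold Ph
  have h : HasDerivAt (fun ε : ℝ => ∑ i ∈ range m, Real.log (E x y (mv w v ε (i + 1))))
      (∑ i ∈ range m, v (i + 1) * (2 * ((w (i + 1) - (x ^ 2 - y ^ 2)) / E x y (w (i + 1))))) 0 := by
    apply HasDerivAt.fun_sum
    intro i hi
    have h1 : E x y (mv w v 0 (i + 1)) ≠ 0 := by rw [mv_zero]; exact (E_pos hy (hw _)).ne'
    have h3 : HasDerivAt (fun ε : ℝ => mv w v ε (i + 1)) (v (i + 1)) 0 := by
      unfold mv
      have := (((hasDerivAt_id (0 : ℝ)).mul_const (v (i + 1))).const_add (w (i + 1)))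
      simpa using this
    have h4 : HasDerivAt (fun ε : ℝ => E x y (mv w v ε (i + 1)))
        (2 * (x ^ 2 - y ^ 2 - w (i + 1)) * (-(v (i + 1)))) 0 := by
      unfold E
      have h5 := ((h3.const_sub (x ^ 2 - y ^ 2)).fun_pow 2).add_const (4 * x ^ 2 * y ^ 2)
      refine h5.congr_deriv ?_
      rw [mv_zero]
      ring
    have h2 := h4.log h1
    refine h2.congr_deriv ?_
    rw [mv_zero]
    ring
  exact h.const_add _

end

end Pool.Agent.Helper69.CB
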